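import Pool.Agent.FZE.Defs
import Pool.Agent.RSt.Odd
import Pool.Agent.RSt.Hopf

set_option autoImplicit false

/-!
# From the function to the continuum, through `RSt`
-/

namespace Pool.Agent.FZE

open Filter Topology

/-- The normalised function on the plane. -/
noncomputable def nkX (F : ℂ × ℂ → ℝ) (x : ℂ) : ℝ := F (x, 1) / (‖x‖ + 1)

theorem nkX_cont {z : ℂ} {F : ℂ × ℂ → ℝ} (h : Anti z F) : Continuous (nkX F) := by
  apply Continuous.div
  · exact h.cont.comp (by fun_prop)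
  · fun_prop
  · intro x; positivity

theorem nkX_neg {z : ℂ} {F : ℂ × ℂ → ℝ} (h : Anti z F) (x : ℂ) : nkX F (-x) = nkX F x := by
  simp [nkX, h.even]

theorem nkX_inv {z : ℂ} {F : ℂ × ℂ → ℝ} (h : Anti z F) {x : ℂ} (hx : x ≠ 0) :
    nkX F x⁻¹ = -nkX F x := by
  have h1 := h.hom x⁻¹ 1 x
  rw [mul_one, inv_mul_cancel₀ hx, h.swap x 1, norm_inv] at h1
  have hn : 0 < ‖x‖ := norm_pos_iff.mpr hx
  simp only [nkX]
  rw [h1, norm_inv]
  field_simp
  ring

theorem nkX_zero {z : ℂ} {F : ℂ × ℂ → ℝ} (h : Anti z F) : 0 < nkX F 0 := by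
  have := h.zero
  simp only [nkX, norm_zero, zero_add, div_one]
  exact this

theorem nkX_trans {z : ℂ} {F : ℂ × ℂ → ℝ} (h : Anti z F) (x : ℂ) (hx : 0 ≤ nkX F x) :
    nkX F (z - x) < 0 := by
  have h1 : 0 ≤ F (x, 1) := by
    simp only [nkX] at hx
    have h2 : 0 < ‖x‖ + 1 := by positivity
    by_contra hcon
    push Not at hcon
    exact absurd hx (not_le.mpr (div_neg_of_neg_of_pos hcon h2))
  have h3 := h.trans x h1
  exact div_neg_of_neg_of_pos h3 (by positivity)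

theorem continuum_of_anti {z : ℂ} {F : ℂ × ℂ → ℝ} (h : Anti z F) :
    ∃ K : Set ℂ, Trap z K ∧ IsConnected K ∧ IsConnected Kᶜ := by
  obtain ⟨K, k1, k2, k3, k4, k5, k6, k7⟩ := Pool.Agent.RSt.exists_continuum_of_sign
    (nkX_cont h) (nkX_neg h) (fun x hx => nkX_inv h hx) (nkX_zero h) (nkX_trans h)
  refine ⟨K, ⟨k1, k3, k4, ?_, ?_⟩, k2, k7⟩
  · intro x hx
    have hx0 : x ≠ 0 := fun h => hx (h ▸ k3)
    exact (k5 x hx0).resolve_left hx
  · intro x hx y hy hxy
    apply k6 y hy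
    rw [← hxy]
    simpa using hx

theorem trap_multiples {z : ℂ} {K : Set ℂ} (h : Trap z K) (hc : IsConnected K) (n : ℤ)
    (hn : n ≠ 0) : ∀ x ∈ K, ∀ y ∈ K, x - y ≠ n * z := by
  have key : ∀ m : ℕ, ∀ x ∈ K, ∀ y ∈ K, x - y ≠ (m + 1) * z := by
    intro m x hx y hy hxy
    have := Pool.Agent.RSt.hopf_multiples h.cpt hc (z := z) (fun w hw hwz => by
      apply h.sep _ hwz _ hw
      ring) m y hy
    apply this
    rw [← hxy]
    simpa using hx
  intro x hx y hy hxy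
  rcases lt_or_gt_of_ne hn with h1 | h1
  · obtain ⟨m, hm⟩ : ∃ m : ℕ, -n = m + 1 := ⟨(-n - 1).toNat, by omega⟩
    apply key m y hy x hx
    have : ((m : ℂ) + 1) = -(n : ℂ) := by
      have h2 : ((m : ℤ) + 1 : ℤ) = -n := hm.symm
      have h3 := congrArg (fun k : ℤ => (k : ℂ)) h2
      push_cast at h3
      exact h3
    rw [this]
    linear_combination -hxy
  · obtain ⟨m, hm⟩ : ∃ m : ℕ, n = m + 1 := ⟨(n - 1).toNat, by omega⟩
    apply key m x hx y hy
    rw [hxy, hm]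
    push_cast
    ring

end Pool.Agent.FZE
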