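import Pool.Agent.FZC.Defs

set_option autoImplicit false

/-!
# The complement of the Feinberg-Zee spectrum: symmetric closed curves.  Definitions.

Text: store MP_1366af_an_FZE_helper98.md.
-/

namespace Pool.Agent.FZE

/-- A trap of `z`: a compact set `K = -K` with `0` in `K`, `1/x` in `K` for all `x` outside `K`, and
`K` disjoint from `K + z`. -/
structure Trap (z : ℂ) (K : Set ℂ) : Prop where
  cpt : IsCompact K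
  zero : (0 : ℂ) ∈ K
  neg : ∀ x ∈ K, -x ∈ K
  inv : ∀ x, x ∉ K → x⁻¹ ∈ K
  sep : ∀ x ∈ K, ∀ y ∈ K, x - y ≠ z

/-- A closed curve in `ℂ \ {0}` symmetric under `x ↦ -x` and `x ↦ 1/x` and disjoint from its
translate by `z`. -/
def Curve (z : ℂ) (γ : Circle → ℂ) : Prop :=
  Continuous γ ∧ (∀ ζ, γ ζ ≠ 0) ∧ (∀ ζ, γ (-ζ) = -γ ζ) ∧ (∀ ζ, γ ζ⁻¹ = (γ ζ)⁻¹) ∧
    ∀ ζ ξ, γ ζ - γ ξ ≠ z

/-- Properties of the functional `N` on `ℂ²` which exists for `z` off the spectrum. -/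
structure Lyap (z : ℂ) (κ : ℝ) (N : ℂ × ℂ → ℝ) : Prop where
  cont : Continuous N
  nonneg : ∀ v, 0 ≤ N v
  hom : ∀ l p q : ℂ, N (l * p, l * q) = ‖l‖ * N (p, q)
  even : ∀ p q, N (-p, q) = N (p, q)
  kap : 1 < κ
  grow : ∀ p q, κ * N (p, q) ≤ N (q, z * q - p)
  pos : ∀ p q, N (p, q) = 0 → N (q, p) = 0 → p = 0 ∧ q = 0

/-- Properties of `F (p, q) = N (p, q) - N (q, p)`. -/
structure Anti (z : ℂ) (F : ℂ × ℂ → ℝ) : Prop where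
  cont : Continuous F
  hom : ∀ l p q : ℂ, F (l * p, l * q) = ‖l‖ * F (p, q)
  even : ∀ p q, F (-p, q) = F (p, q)
  swap : ∀ p q, F (q, p) = -F (p, q)
  zero : 0 < F (0, 1)
  trans : ∀ x, 0 ≤ F (x, 1) → F (z - x, 1) < 0

/-- One step `(p, q) ↦ (q, z q - b p)`. -/
def stp (z b : ℂ) (v : ℂ × ℂ) : ℂ × ℂ := (v.2, z * v.2 - b * v.1)

/-- There is a finite pseudo-orbit `w` from `v` to `0` whose errors are at most `ε κ ^ n`. -/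
def PO (z : ℂ) (κ : ℝ) (v : ℂ × ℂ) (ε : ℝ) : Prop :=
  ∃ (b : ℕ → ℂ) (w : ℕ → ℂ × ℂ), (∀ n, b n = 1 ∨ b n = -1) ∧ (∃ k, ∀ n, k ≤ n → w n = 0) ∧
    ‖w 0 - v‖ ≤ ε ∧ ∀ n, ‖w (n + 1) - stp z (b n) (w n)‖ ≤ ε * κ ^ (n + 1)

/-- The functional. -/
noncomputable def NN (z : ℂ) (κ : ℝ) (v : ℂ × ℂ) : ℝ := sInf {ε | 0 ≤ ε ∧ PO z κ v ε}

end Pool.Agent.FZE
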