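import Pool.Agent.FZE.AntiX

set_option autoImplicit false

/-!
# Integer digits: all continuants are nonzero
-/

namespace Pool.Agent.FZE

theorem sign_mul_mem {z : ℂ} {K : Set ℂ} (h : Trap z K) {b x : ℂ} (hb : b = 1 ∨ b = -1)
    (hx : x ∈ K) : b * x ∈ K := by
  rcases hb with rfl | rfl
  · simpa using hx
  · simpa using h.neg x hx

/-- One step with an integer digit maps the connected trap into itself. -/
theorem digit_step {z : ℂ} {K : Set ℂ} (h : Trap z K) (hc : IsConnected K) {d : ℤ} (hd : d ≠ 0)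
    {b x : ℂ} (hb : b = 1 ∨ b = -1) (hx : x ∈ K) :
    (d : ℂ) * z - b * x ≠ 0 ∧ ((d : ℂ) * z - b * x)⁻¹ ∈ K := by
  have hbx : -(b * x) ∈ K := h.neg _ (sign_mul_mem h hb hx)
  have hnot : (d : ℂ) * z - b * x ∉ K := by
    intro hK
    apply trap_multiples h hc d hd _ hK _ hbx
    ring
  exact ⟨fun h0 => hnot (h0 ▸ h.zero), h.inv _ hnot⟩

/-- Continuants with nonzero integer digits never vanish off the spectrum. -/
theorem continuant_mem {z : ℂ} {K : Set ℂ} (h : Trap z K) (hc : IsConnected K) {d : ℕ → ℤ}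
    (hd : ∀ n, d n ≠ 0) {b : ℕ → ℂ} (hb : ∀ n, b n = 1 ∨ b n = -1) {ψ : ℕ → ℂ} (h0 : ψ 0 = 1)
    (h1 : ψ 1 = (d 0 : ℂ) * z)
    (hrec : ∀ n, ψ (n + 2) = (d (n + 1) : ℂ) * z * ψ (n + 1) - b n * ψ n) (n : ℕ) :
    ψ n ≠ 0 ∧ ψ (n + 1) ≠ 0 ∧ ψ n / ψ (n + 1) ∈ K := by
  induction n with
  | zero =>
    have := digit_step h hc (hd 0) (b := 1) (Or.inl rfl) h.zero
    rw [mul_zero, sub_zero] at this
    rw [zero_add, h0, h1]
    exact ⟨one_ne_zero, this.1, by simpa using this.2⟩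
  | succ n ih =>
    obtain ⟨i1, i2, i3⟩ := ih
    have h2 := digit_step h hc (hd (n + 1)) (hb n) i3
    have e : ψ (n + 1 + 1) = ψ (n + 1) * ((d (n + 1) : ℂ) * z - b n * (ψ n / ψ (n + 1))) := by
      rw [hrec n]
      field_simp
    refine ⟨i2, ?_, ?_⟩
    · rw [e]; exact mul_ne_zero i2 h2.1
    · rw [e, div_mul_eq_div_div, div_self i2, one_div]
      exact h2.2

end Pool.Agent.FZE
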