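import Pool.Agent.FZE.Defs

set_option autoImplicit false

open Pool.Agent.FZC

/-!
# The functional
-/

namespace Pool.Agent.FZE

/- MODULE na
Elementary properties of `NN` for `κ > 1` (`w = 0` shows that `PO z κ v ‖v‖` holds). -/
theorem NN_nonneg (z : ℂ) (κ : ℝ) (v : ℂ × ℂ) : 0 ≤ NN z κ v := by
  exact Real.sInf_nonneg (fun x hx => hx.1)

theorem PO_of_lt {z : ℂ} {κ : ℝ} (hκ : 1 < κ) {v : ℂ × ℂ} {ε : ℝ} (h : NN z κ v < ε) :
    PO z κ v ε := by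
  have hne : {ε : ℝ | 0 ≤ ε ∧ PO z κ v ε}.Nonempty := by
    refine ⟨‖v‖, norm_nonneg v, fun _ => 1, fun _ => 0, fun _ => Or.inl rfl, ⟨0, fun _ _ => rfl⟩,
      by simp, fun n => ?_⟩
    have : stp z 1 (0 : ℂ × ℂ) = 0 := by simp [stp]
    rw [this]
    simp only [sub_self, norm_zero]
    positivity
  obtain ⟨ε', ⟨h0, b, w, hb, hk, hw, hs⟩, hlt⟩ := exists_lt_of_csInf_lt hne h
  refine ⟨b, w, hb, hk, hw.trans hlt.le, fun n => (hs n).trans ?_⟩
  exact mul_le_mul_of_nonneg_right hlt.le (by positivity)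

theorem NN_le {z : ℂ} {κ : ℝ} {v : ℂ × ℂ} {ε : ℝ} (h0 : 0 ≤ ε) (h : PO z κ v ε) :
    NN z κ v ≤ ε := by
  exact csInf_le ⟨0, fun x hx => hx.1⟩ ⟨h0, h⟩
/- END na -/

/- MODULE nb
`NN z κ v' ≤ NN z κ v + ‖v' - v‖`, so `NN z κ` is Lipschitz. -/
private theorem nb_lip (z : ℂ) {κ : ℝ} (hκ : 1 < κ) (v v' : ℂ × ℂ) :
    NN z κ v' ≤ NN z κ v + ‖v' - v‖ := by
  refine le_of_forall_gt_imp_ge_of_dense (fun e he => ?_)
  have h1 : NN z κ v < e - ‖v' - v‖ := by linarith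
  obtain ⟨b, w, hb, hk, hw, hs⟩ := PO_of_lt hκ h1
  have h0 : 0 ≤ e - ‖v' - v‖ := (NN_nonneg z κ v).trans h1.le
  have hn := norm_nonneg (v' - v)
  refine NN_le (by linarith) ⟨b, w, hb, hk, ?_, fun n => (hs n).trans ?_⟩
  · calc ‖w 0 - v'‖ = ‖(w 0 - v) + (v - v')‖ := by congr 1; abel
      _ ≤ ‖w 0 - v‖ + ‖v - v'‖ := norm_add_le _ _
      _ ≤ (e - ‖v' - v‖) + ‖v' - v‖ := by rw [norm_sub_rev v v']; linarith
      _ = e := by ring
  · exact mul_le_mul_of_nonneg_right (by linarith) (by positivity)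

private theorem nb_hom (z : ℂ) {κ : ℝ} (hκ : 1 < κ) (l p q : ℂ) :
    NN z κ (l * p, l * q) ≤ ‖l‖ * NN z κ (p, q) := by
  have key : ∀ e, NN z κ (p, q) < e → NN z κ (l * p, l * q) ≤ ‖l‖ * e := by
    intro e he
    obtain ⟨b, w, hb, ⟨k, hk⟩, hw, hs⟩ := PO_of_lt hκ he
    have h0 : 0 ≤ e := (NN_nonneg z κ _).trans he.le
    refine NN_le (by positivity) ⟨b, fun n => l • w n, hb, ⟨k, fun n hn => by simp [hk n hn]⟩, ?_,
      fun n => ?_⟩
    · have : l • w 0 - (l * p, l * q) = l • (w 0 - (p, q)) := by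
        rw [smul_sub]; rfl
      simp only [this, norm_smul]
      exact mul_le_mul_of_nonneg_left hw (norm_nonneg l)
    · have : l • w (n + 1) - stp z (b n) (l • w n) = l • (w (n + 1) - stp z (b n) (w n)) := by
        rw [smul_sub]
        congr 1
        simp only [stp, Prod.smul_fst, Prod.smul_snd, smul_eq_mul, Prod.smul_mk, Prod.mk.injEq,
          true_and]
        ring
      simp only [this, norm_smul]
      calc ‖l‖ * ‖w (n + 1) - stp z (b n) (w n)‖ ≤ ‖l‖ * (e * κ ^ (n + 1)) :=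
            mul_le_mul_of_nonneg_left (hs n) (norm_nonneg l)
        _ = ‖l‖ * e * κ ^ (n + 1) := by ring
  rcases eq_or_lt_of_le (norm_nonneg l) with h | h
  · have := key (NN z κ (p, q) + 1) (by linarith)
    rw [← h] at this ⊢
    linarith
  · refine le_of_forall_gt_imp_ge_of_dense (fun e he => ?_)
    have h1 : NN z κ (p, q) < e / ‖l‖ := by
      rw [lt_div_iff₀ h, mul_comm]; exact he
    have := key _ h1
    rwa [mul_div_cancel₀ _ h.ne'] at this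

theorem NN_cont (z : ℂ) {κ : ℝ} (hκ : 1 < κ) : Continuous (NN z κ) := by
  have hl : LipschitzWith 1 (NN z κ) := by
    refine LipschitzWith.of_dist_le_mul (fun v v' => ?_)
    rw [Real.dist_eq, NNReal.coe_one, one_mul, dist_eq_norm, abs_le]
    constructor
    · have := nb_lip z hκ v v'
      rw [norm_sub_rev] at this
      linarith
    · have := nb_lip z hκ v' v
      linarith
  exact hl.continuous

theorem NN_hom (z : ℂ) {κ : ℝ} (hκ : 1 < κ) (l p q : ℂ) :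
    NN z κ (l * p, l * q) = ‖l‖ * NN z κ (p, q) := by
  refine le_antisymm (nb_hom z hκ l p q) ?_
  by_cases hl : l = 0
  · subst hl
    simp only [norm_zero, zero_mul]
    exact NN_nonneg _ _ _
  · have h := nb_hom z hκ l⁻¹ (l * p) (l * q)
    rw [inv_mul_cancel_left₀ hl, inv_mul_cancel_left₀ hl, norm_inv] at h
    have hp : 0 < ‖l‖ := norm_pos_iff.mpr hl
    calc ‖l‖ * NN z κ (p, q) ≤ ‖l‖ * (‖l‖⁻¹ * NN z κ (l * p, l * q)) :=
          mul_le_mul_of_nonneg_left h hp.le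
      _ = NN z κ (l * p, l * q) := by rw [mul_inv_cancel_left₀ hp.ne']
/- END nb -/

/- MODULE nc
`stp z b (-p, q) = stp z (-b) (p, q)`: from a pseudo-orbit `w` of `(p, q)` one gets one of
`(-p, q)` by changing `w 0 = (a, c)` to `(-a, c)` and `b 0` to `- b 0`. -/
private theorem nc_even (z : ℂ) {κ : ℝ} (hκ : 1 < κ) (p q : ℂ) :
    NN z κ (-p, q) ≤ NN z κ (p, q) := by
  refine le_of_forall_gt_imp_ge_of_dense (fun e he => ?_)
  obtain ⟨b, w, hb, ⟨k, hk⟩, hw, hs⟩ := PO_of_lt hκ he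
  have h0 : 0 ≤ e := (NN_nonneg z κ _).trans he.le
  refine NN_le h0 ⟨fun n => if n = 0 then - b 0 else b n,
    fun n => if n = 0 then (-(w 0).1, (w 0).2) else w n, ?_, ⟨k + 1, ?_⟩, ?_, ?_⟩
  · intro n
    by_cases hn : n = 0
    · simp only [hn, if_true]
      rcases hb 0 with h | h
      · right; rw [h]
      · left; rw [h]; norm_num
    · simp only [hn, if_false]
      exact hb n
  · intro n hn
    have : n ≠ 0 := by omega
    simp only [this, if_false]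
    exact hk n (by omega)
  · simp only [if_true]
    refine le_trans (le_of_eq ?_) hw
    rw [Prod.norm_def, Prod.norm_def]
    simp only [Prod.fst_sub, Prod.snd_sub]
    have : -(w 0).1 - -p = -((w 0).1 - p) := by ring
    rw [this, norm_neg]
  · intro n
    have h1 : n + 1 ≠ 0 := by omega
    simp only [h1, if_false]
    by_cases hn : n = 0
    · subst hn
      simp only [if_true]
      refine le_trans (le_of_eq ?_) (hs 0)
      congr 2
      simp only [stp, Prod.mk.injEq, true_and]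
      ring
    · simp only [hn, if_false]
      exact hs n

theorem NN_even (z : ℂ) {κ : ℝ} (hκ : 1 < κ) (p q : ℂ) : NN z κ (-p, q) = NN z κ (p, q) := by
  refine le_antisymm (nc_even z hκ p q) ?_
  have := nc_even z hκ (-p) q
  rwa [neg_neg] at this

/-- From a pseudo-orbit of `stp z 1 v` with constant `ε` one gets one of `v` with constant `ε / κ`:
put `v` in front of it. -/
theorem NN_grow (z : ℂ) {κ : ℝ} (hκ : 1 < κ) (p q : ℂ) :
    κ * NN z κ (p, q) ≤ NN z κ (q, z * q - p) := by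
  refine le_of_forall_gt_imp_ge_of_dense (fun e he => ?_)
  have hκ0 : 0 < κ := by linarith
  obtain ⟨b, w, hb, ⟨k, hk⟩, hw, hs⟩ := PO_of_lt hκ he
  have h0 : 0 ≤ e := (NN_nonneg z κ _).trans he.le
  have h2 : NN z κ (p, q) ≤ e / κ := by
    refine NN_le (by positivity) ⟨fun n => if n = 0 then 1 else b (n - 1),
      fun n => if n = 0 then (p, q) else w (n - 1), ?_, ⟨k + 1, ?_⟩, ?_, ?_⟩
    · intro n
      by_cases hn : n = 0
      · left; simp only [hn, if_true]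
      · simp only [hn, if_false]
        exact hb _
    · intro n hn
      have : n ≠ 0 := by omega
      simp only [this, if_false]
      exact hk _ (by omega)
    · simp only [if_true, sub_self, norm_zero]
      positivity
    · intro n
      have h1 : n + 1 ≠ 0 := by omega
      simp only [h1, if_false, Nat.add_sub_cancel]
      by_cases hn : n = 0
      · subst hn
        simp only [if_true]
        have h3 : stp z 1 (p, q) = (q, z * q - p) := by simp [stp]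
        rw [h3]
        refine hw.trans (le_of_eq ?_)
        field_simp
        ring
      · obtain ⟨j, rfl⟩ : ∃ j, n = j + 1 := ⟨n - 1, by omega⟩
        simp only [hn, if_false, Nat.add_sub_cancel]
        refine (hs j).trans (le_of_eq ?_)
        rw [pow_succ κ (j + 1)]
        field_simp
  calc κ * NN z κ (p, q) ≤ κ * (e / κ) := mul_le_mul_of_nonneg_left h2 hκ0.le
    _ = e := mul_div_cancel₀ e hκ0.ne'
/- END nc -/

/- MODULE nd
Gauge change: `A n u (n+1) + B (n-1) u (n-1) - z u n` with signs `A`, `B`.  Put `c n = 1` if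
`A n * B n = 1`, `c n = I` otherwise (so `c n ^ 2 = A n * B n`), choose `g : ℤ → ℂ` with `g 0 = 1`,
`g (n + 1) = c n * B n * g n` (so `‖g n‖ = 1`), and `φ n = g n * u n`.  Then
`Rs c z φ n = g n * (A n u (n+1) + B (n-1) u (n-1) - z u n)`. -/
private theorem nd_rec (a : ℤ → ℂ) (ha : ∀ n, a n ≠ 0) :
    ∃ g : ℤ → ℂ, g 0 = 1 ∧ ∀ n, g (n + 1) = a n * g n := by
  refine ⟨fun n => if 0 ≤ n then ∏ i ∈ Finset.range n.toNat, a i
    else (∏ i ∈ Finset.range (-n).toNat, a (-((i : ℤ) + 1)))⁻¹, by simp, fun n => ?_⟩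
  rcases le_or_gt 0 n with hn | hn
  · obtain ⟨k, rfl⟩ := Int.eq_ofNat_of_zero_le hn
    have h1 : (0 : ℤ) ≤ (k : ℤ) + 1 := by omega
    have h2 : ((k : ℤ) + 1).toNat = k + 1 := by omega
    simp only [h1, if_true, hn, h2, Int.toNat_natCast, Finset.prod_range_succ]
    ring
  · obtain ⟨k, hk⟩ : ∃ k : ℕ, n = -((k : ℤ) + 1) := ⟨(-n - 1).toNat, by omega⟩
    subst hk
    have h1 : ¬ (0 : ℤ) ≤ -((k : ℤ) + 1) := by omega
    have h2 : (-(-((k : ℤ) + 1))).toNat = k + 1 := by omega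
    have h3 : -((k : ℤ) + 1) + 1 = -(k : ℤ) := by ring
    rw [h3]
    simp only [h1, if_false, h2, Finset.prod_range_succ]
    rcases Nat.eq_zero_or_pos k with hk | hk
    · subst hk
      simp [mul_inv_cancel₀ (ha (-1))]
    · have h4 : ¬ (0 : ℤ) ≤ -(k : ℤ) := by omega
      have h5 : (-(-(k : ℤ))).toNat = k := by omega
      simp only [h4, if_false, h5]
      rw [mul_inv, mul_comm (a _), mul_assoc, inv_mul_cancel₀ (ha _), mul_one]

theorem lower {m : ℝ} {z : ℂ} (hU : Unif m z) (A B : ℤ → ℂ) (hA : ∀ n, A n = 1 ∨ A n = -1)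
    (hB : ∀ n, B n = 1 ∨ B n = -1) (u : ℤ → ℂ) (hu : ∃ C : ℝ, ∀ n, ‖u n‖ ≤ C) (δ : ℝ)
    (hδ : ∀ n, ‖A n * u (n + 1) + B (n - 1) * u (n - 1) - z * u n‖ ≤ δ) :
    ∀ n, m * ‖u n‖ ≤ δ := by
  classical
  obtain ⟨C, hC⟩ := hu
  set c : ℤ → ℂ := fun n => if A n * B n = 1 then 1 else Complex.I with hcdef
  have hc : ∀ n, c n = 1 ∨ c n = Complex.I := by
    intro n
    by_cases h : A n * B n = 1
    · left; simp [hcdef, h]
    · right; simp [hcdef, h]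
  have hc2 : ∀ n, c n * c n = A n * B n := by
    intro n
    by_cases h : A n * B n = 1
    · simp [hcdef, h]
    · have h' : A n * B n = -1 := by
        rcases hA n with h1 | h1 <;> rcases hB n with h2 | h2 <;> simp [h1, h2] at h ⊢
      have h'' : ¬ ((-1 : ℂ) = 1) := by norm_num
      simp [hcdef, h', h'']
  have hB2 : ∀ n, B n * B n = 1 := by
    intro n
    rcases hB n with h | h <;> simp [h]
  have hcn : ∀ n, ‖c n‖ = 1 := by
    intro n
    rcases hc n with h | h <;> simp [h]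
  have hBn : ∀ n, ‖B n‖ = 1 := by
    intro n
    rcases hB n with h | h <;> simp [h]
  have hcne : ∀ n, c n * B n ≠ 0 := by
    intro n h
    have : ‖c n * B n‖ = 1 := by rw [norm_mul, hcn, hBn]; norm_num
    rw [h, norm_zero] at this
    norm_num at this
  obtain ⟨g, hg0, hg⟩ := nd_rec (fun n => c n * B n) hcne
  have hgn : ∀ n, ‖g n‖ = 1 := by
    intro n
    induction n using Int.induction_on with
    | zero => rw [hg0]; norm_num
    | succ i ih => rw [hg, norm_mul, norm_mul, hcn, hBn, ih]; norm_num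
    | pred i ih =>
      have := hg (-(i : ℤ) - 1)
      rw [sub_add_cancel] at this
      rw [this, norm_mul, norm_mul, hcn, hBn] at ih
      linarith
  have hR : ∀ n, Rs c z (fun n => g n * u n) n
      = g n * (A n * u (n + 1) + B (n - 1) * u (n - 1) - z * u n) := by
    intro n
    have e1 : c n * g (n + 1) = g n * A n := by
      rw [hg n]
      calc c n * (c n * B n * g n) = (c n * c n) * B n * g n := by ring
        _ = A n * (B n * B n) * g n := by rw [hc2]; ring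
        _ = g n * A n := by rw [hB2]; ring
    have e2 : c (n - 1) * g (n - 1) = g n * B (n - 1) := by
      have := hg (n - 1)
      rw [sub_add_cancel] at this
      rw [this]
      calc c (n - 1) * g (n - 1) = c (n - 1) * (B (n - 1) * B (n - 1)) * g (n - 1) := by
            rw [hB2]; ring
        _ = c (n - 1) * B (n - 1) * g (n - 1) * B (n - 1) := by ring
    calc Rs c z (fun n => g n * u n) n
        = (c n * g (n + 1)) * u (n + 1) + (c (n - 1) * g (n - 1)) * u (n - 1) - z * (g n * u n) := by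
          simp only [Rs]; ring
      _ = g n * (A n * u (n + 1) + B (n - 1) * u (n - 1) - z * u n) := by
          rw [e1, e2]; ring
  intro n
  have h := hU c hc (fun n => g n * u n) ⟨C, fun n => by rw [norm_mul, hgn, one_mul]; exact hC n⟩ δ
    (fun n => by rw [hR, norm_mul, hgn, one_mul]; exact hδ n) n
  rwa [norm_mul, hgn, one_mul] at h
/- END nd -/

/- MODULE ne
First coordinates of a pseudo-orbit satisfy the scalar recurrence up to errors. -/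
theorem PO_scal {z : ℂ} {κ : ℝ} (hκ : 1 < κ) {p q : ℂ} {ε : ℝ} (h0 : 0 ≤ ε)
    (h : PO z κ (p, q) ε) : ∃ (b : ℕ → ℂ) (P : ℕ → ℂ), (∀ n, b n = 1 ∨ b n = -1) ∧
      (∃ k, ∀ n, k ≤ n → P n = 0) ∧ ‖P 0 - p‖ ≤ ε ∧ ‖P 1 - q‖ ≤ 2 * ε * κ ∧
      ∀ n, ‖P (n + 2) + b n * P n - z * P (n + 1)‖ ≤ (2 + ‖z‖) * ε * κ ^ (n + 2) := by
  obtain ⟨b, w, hb, ⟨k, hk⟩, hw, hs⟩ := h
  have hκ0 : 0 < κ := by linarith
  have hw1 : ‖(w 0).1 - p‖ ≤ ε := (norm_fst_le (w 0 - (p, q))).trans hw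
  have hw2 : ‖(w 0).2 - q‖ ≤ ε := (norm_snd_le (w 0 - (p, q))).trans hw
  have hs1 : ∀ n, ‖(w (n + 1)).1 - (w n).2‖ ≤ ε * κ ^ (n + 1) := fun n =>
    (norm_fst_le (w (n + 1) - stp z (b n) (w n))).trans (hs n)
  have hs2 : ∀ n, ‖(w (n + 1)).2 - (z * (w n).2 - b n * (w n).1)‖ ≤ ε * κ ^ (n + 1) := fun n =>
    (norm_snd_le (w (n + 1) - stp z (b n) (w n))).trans (hs n)
  refine ⟨b, fun n => (w n).1, hb, ⟨k, fun n hn => by simp [hk n hn]⟩, hw1, ?_, fun n => ?_⟩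
  · have h1 := hs1 0
    have : (w 1).1 - q = ((w (0 + 1)).1 - (w 0).2) + ((w 0).2 - q) := by simp
    calc ‖(w 1).1 - q‖ = ‖((w (0 + 1)).1 - (w 0).2) + ((w 0).2 - q)‖ := by rw [this]
      _ ≤ ‖(w (0 + 1)).1 - (w 0).2‖ + ‖(w 0).2 - q‖ := norm_add_le _ _
      _ ≤ ε * κ ^ (0 + 1) + ε := add_le_add h1 hw2
      _ ≤ 2 * ε * κ := by
        have : ε * 1 ≤ ε * κ := mul_le_mul_of_nonneg_left hκ.le h0
        rw [zero_add, pow_one]
        linarith
  · have h1 := hs1 (n + 1)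
    have h2 := hs2 n
    have h3 := hs1 n
    have e : (w (n + 2)).1 + b n * (w n).1 - z * (w (n + 1)).1
        = ((w (n + 1 + 1)).1 - (w (n + 1)).2)
          + ((w (n + 1)).2 - (z * (w n).2 - b n * (w n).1))
          - z * ((w (n + 1)).1 - (w n).2) := by
      have : n + 1 + 1 = n + 2 := by ring
      rw [this]; ring
    have hk1 : ε * κ ^ (n + 1) ≤ ε * κ ^ (n + 2) :=
      mul_le_mul_of_nonneg_left (pow_le_pow_right₀ hκ.le (by omega)) h0
    show ‖(w (n + 2)).1 + b n * (w n).1 - z * (w (n + 1)).1‖ ≤ _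
    rw [e]
    refine (norm_sub_le _ _).trans ?_
    refine (add_le_add (norm_add_le _ _) (le_of_eq (norm_mul _ _))).trans ?_
    have h4 : ‖z‖ * ‖(w (n + 1)).1 - (w n).2‖ ≤ ‖z‖ * (ε * κ ^ (n + 2)) :=
      mul_le_mul_of_nonneg_left (h3.trans hk1) (norm_nonneg z)
    have h5 : ‖(w (n + 1 + 1)).1 - (w (n + 1)).2‖ ≤ ε * κ ^ (n + 2) := h1
    nlinarith [h2.trans hk1]
/- END ne -/

/- MODULE nf
Glueing.  `u n = P n κ^(-n)` for `n ≥ 1`, `u n = Q (1 - n) κ^(n - 1)` for `n ≤ 0`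
(so `u 1 = P 1 / κ`, `u 0 = Q 1 / κ`), `A n = 1` for `n ≥ 1` and `b' (-n)` for `n ≤ 0`, `B n = b n` for
`n ≥ 0` and `1` for `n < 0`.  With `S = max |u n|` every residual is at most
`C₁ ε + (κ - 1) C₂ S`, where `C₁`, `C₂` depend on `z` only (`1 < κ ≤ 2`). -/
private theorem nf_inv {κ : ℝ} (hκ : 1 < κ) : ‖(κ : ℂ)⁻¹‖ = κ⁻¹ := by
  rw [norm_inv, Complex.norm_real, Real.norm_of_nonneg (by linarith)]

private theorem nf_core {z : ℂ} {κ ε S : ℝ} (hκ : 1 < κ) (hκ2 : κ ≤ 2) (hε : 0 ≤ ε) {n : ℕ}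
    {s a c x c' : ℂ} (hs : s = 1 ∨ s = -1)
    (h : ‖a + s * c - z * x‖ ≤ (2 + ‖z‖) * ε * κ ^ (n + 2))
    (hS : ‖a * ((κ : ℂ)⁻¹) ^ (n + 2)‖ ≤ S)
    (hc : ‖c' - c * ((κ : ℂ)⁻¹) ^ (n + 1)‖ ≤ (κ - 1) * S + 3 * ε) :
    ‖a * ((κ : ℂ)⁻¹) ^ (n + 2) + s * c' - z * (x * ((κ : ℂ)⁻¹) ^ (n + 1))‖
      ≤ (7 + 2 * ‖z‖) * ε + (κ - 1) * (7 + 2 * ‖z‖) * S := by
  have hκ0 : 0 < κ := by linarith
  have hκc : (κ : ℂ) ≠ 0 := by exact_mod_cast hκ0.ne'
  have hz := norm_nonneg z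
  have hS0 : 0 ≤ S := (norm_nonneg _).trans hS
  have hsn : ‖s‖ = 1 := by rcases hs with h | h <;> simp [h]
  have e : a * ((κ : ℂ)⁻¹) ^ (n + 2) + s * c' - z * (x * ((κ : ℂ)⁻¹) ^ (n + 1))
      = ((κ : ℂ)⁻¹) ^ (n + 1) * (a + s * c - z * x)
        + (a * ((κ : ℂ)⁻¹) ^ (n + 2)) * (1 - (κ : ℂ)) + s * (c' - c * ((κ : ℂ)⁻¹) ^ (n + 1)) := by
    have : (κ : ℂ)⁻¹ ^ (n + 2) * (κ : ℂ) = (κ : ℂ)⁻¹ ^ (n + 1) := by
      rw [pow_succ ((κ : ℂ)⁻¹) (n + 1), mul_assoc, inv_mul_cancel₀ hκc, mul_one]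
    linear_combination a * this
  have h1 : ‖((κ : ℂ)⁻¹) ^ (n + 1) * (a + s * c - z * x)‖ ≤ 2 * (2 + ‖z‖) * ε := by
    rw [norm_mul, norm_pow, nf_inv hκ]
    calc κ⁻¹ ^ (n + 1) * ‖a + s * c - z * x‖
        ≤ κ⁻¹ ^ (n + 1) * ((2 + ‖z‖) * ε * κ ^ (n + 2)) :=
          mul_le_mul_of_nonneg_left h (by positivity)
      _ = (2 + ‖z‖) * ε * κ := by
          rw [inv_pow, pow_succ κ (n + 1)]
          field_simp
      _ ≤ (2 + ‖z‖) * ε * 2 := mul_le_mul_of_nonneg_left hκ2 (by positivity)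
      _ = 2 * (2 + ‖z‖) * ε := by ring
  have h2 : ‖(a * ((κ : ℂ)⁻¹) ^ (n + 2)) * (1 - (κ : ℂ))‖ ≤ (κ - 1) * S := by
    rw [norm_mul]
    have : ‖1 - (κ : ℂ)‖ = κ - 1 := by
      have : (1 : ℂ) - κ = ((1 - κ : ℝ) : ℂ) := by push_cast; ring
      rw [this, Complex.norm_real, Real.norm_eq_abs, abs_of_nonpos (by linarith)]
      ring
    rw [this, mul_comm]
    exact mul_le_mul_of_nonneg_left hS (by linarith)
  have h3 : ‖s * (c' - c * ((κ : ℂ)⁻¹) ^ (n + 1))‖ ≤ (κ - 1) * S + 3 * ε := by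
    rw [norm_mul, hsn, one_mul]; exact hc
  rw [e]
  have h4 := (norm_add_le (((κ : ℂ)⁻¹) ^ (n + 1) * (a + s * c - z * x)
        + (a * ((κ : ℂ)⁻¹) ^ (n + 2)) * (1 - (κ : ℂ))) (s * (c' - c * ((κ : ℂ)⁻¹) ^ (n + 1))))
  have h5 := (norm_add_le (((κ : ℂ)⁻¹) ^ (n + 1) * (a + s * c - z * x))
        ((a * ((κ : ℂ)⁻¹) ^ (n + 2)) * (1 - (κ : ℂ))))
  have h6 : 0 ≤ (κ - 1) * S := mul_nonneg (by linarith) hS0
  have h7 : 0 ≤ (κ - 1) * S * (5 + 2 * ‖z‖) := by positivity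
  linarith

private theorem nf_nb {κ ε S : ℝ} (hκ : 1 < κ) (hε : 0 ≤ ε) {i : ℕ} {y : ℂ}
    (hS : ‖y * ((κ : ℂ)⁻¹) ^ (i + 1)‖ ≤ S) :
    ‖y * ((κ : ℂ)⁻¹) ^ (i + 1) - y * ((κ : ℂ)⁻¹) ^ (i + 1 + 1)‖ ≤ (κ - 1) * S + 3 * ε := by
  have hκ0 : 0 < κ := by linarith
  have hS0 : 0 ≤ S := (norm_nonneg _).trans hS
  have e : y * ((κ : ℂ)⁻¹) ^ (i + 1) - y * ((κ : ℂ)⁻¹) ^ (i + 1 + 1)
      = (y * ((κ : ℂ)⁻¹) ^ (i + 1)) * (1 - (κ : ℂ)⁻¹) := by
    rw [pow_succ ((κ : ℂ)⁻¹) (i + 1)]; ring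
  have h1 : ‖1 - (κ : ℂ)⁻¹‖ ≤ κ - 1 := by
    have h2 : (1 : ℂ) - (κ : ℂ)⁻¹ = ((1 - κ⁻¹ : ℝ) : ℂ) := by push_cast; ring
    have h3 : κ⁻¹ ≤ 1 := inv_le_one_of_one_le₀ hκ.le
    rw [h2, Complex.norm_real, Real.norm_of_nonneg (by linarith)]
    have h4 : κ * κ⁻¹ = 1 := mul_inv_cancel₀ hκ0.ne'
    nlinarith [mul_nonneg (sub_nonneg.mpr hκ.le) (sub_nonneg.mpr h3)]
  rw [e, norm_mul]
  calc ‖y * ((κ : ℂ)⁻¹) ^ (i + 1)‖ * ‖1 - (κ : ℂ)⁻¹‖ ≤ S * (κ - 1) :=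
        mul_le_mul hS h1 (norm_nonneg _) hS0
    _ ≤ (κ - 1) * S + 3 * ε := by linarith

theorem residual (z : ℂ) : ∃ C : ℝ, 0 < C ∧ ∀ κ : ℝ, 1 < κ → κ ≤ 2 → ∀ (p q : ℂ) (ε : ℝ), 0 ≤ ε →
    ∀ (b P b' Q : ℕ → ℂ), (∀ n, b n = 1 ∨ b n = -1) → (∀ n, b' n = 1 ∨ b' n = -1) →
    (∃ k, ∀ n, k ≤ n → P n = 0) → (∃ k, ∀ n, k ≤ n → Q n = 0) →
    ‖P 0 - p‖ ≤ ε → ‖P 1 - q‖ ≤ 2 * ε * κ → ‖Q 0 - q‖ ≤ ε → ‖Q 1 - p‖ ≤ 2 * ε * κ →
    (∀ n, ‖P (n + 2) + b n * P n - z * P (n + 1)‖ ≤ (2 + ‖z‖) * ε * κ ^ (n + 2)) →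
    (∀ n, ‖Q (n + 2) + b' n * Q n - z * Q (n + 1)‖ ≤ (2 + ‖z‖) * ε * κ ^ (n + 2)) →
    ∃ (A B u : ℤ → ℂ) (S : ℝ), (∀ n, A n = 1 ∨ A n = -1) ∧ (∀ n, B n = 1 ∨ B n = -1) ∧
      (∃ n, S = ‖u n‖) ∧ (∀ n, ‖u n‖ ≤ S) ∧ ‖q‖ ≤ 2 * S + 4 * ε ∧ ‖p‖ ≤ 2 * S + 4 * ε ∧
      ∀ n, ‖A n * u (n + 1) + B (n - 1) * u (n - 1) - z * u n‖ ≤ C * ε + (κ - 1) * C * S := by
  refine ⟨7 + 2 * ‖z‖, by positivity, ?_⟩
  intro κ hκ hκ2 p q ε hε b P b' Q hb hb' hP hQ hP0 hP1 hQ0 hQ1 hPr hQr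
  obtain ⟨k, hk⟩ := hP
  obtain ⟨k', hk'⟩ := hQ
  have hκ0 : 0 < κ := by linarith
  set u : ℤ → ℂ := fun n => if 1 ≤ n then P n.toNat * ((κ : ℂ)⁻¹) ^ n.toNat
    else Q (1 - n).toNat * ((κ : ℂ)⁻¹) ^ (1 - n).toNat with hu
  have huP : ∀ j : ℕ, u ((j : ℤ) + 1) = P (j + 1) * ((κ : ℂ)⁻¹) ^ (j + 1) := by
    intro j
    have h1 : (1 : ℤ) ≤ (j : ℤ) + 1 := by omega
    have h2 : ((j : ℤ) + 1).toNat = j + 1 := by omega
    simp only [hu, h1, if_true, h2]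
  have huQ : ∀ j : ℕ, u (-(j : ℤ)) = Q (j + 1) * ((κ : ℂ)⁻¹) ^ (j + 1) := by
    intro j
    have h1 : ¬ (1 : ℤ) ≤ -(j : ℤ) := by omega
    have h2 : (1 - -(j : ℤ)).toNat = j + 1 := by omega
    simp only [hu, h1, if_false, h2]
  have hcase : ∀ n : ℤ, (∃ j : ℕ, n = (j : ℤ) + 1) ∨ ∃ j : ℕ, n = -(j : ℤ) := by
    intro n
    rcases le_or_gt 1 n with h | h
    · exact Or.inl ⟨(n - 1).toNat, by omega⟩
    · exact Or.inr ⟨(-n).toNat, by omega⟩
  obtain ⟨n0, -, hn0⟩ := Finset.exists_max_image (Finset.Icc (-(k' : ℤ)) (k : ℤ)) (fun n => ‖u n‖)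
    ⟨0, by rw [Finset.mem_Icc]; omega⟩
  have hmax : ∀ n, ‖u n‖ ≤ ‖u n0‖ := by
    intro n
    by_cases hn : n ∈ Finset.Icc (-(k' : ℤ)) (k : ℤ)
    · exact hn0 n hn
    · have : u n = 0 := by
        rw [Finset.mem_Icc, not_and_or] at hn
        rcases hcase n with ⟨j, rfl⟩ | ⟨j, rfl⟩
        · rw [huP, hk _ (by omega), zero_mul]
        · rw [huQ, hk' _ (by omega), zero_mul]
      rw [this, norm_zero]
      exact norm_nonneg _
  set S := ‖u n0‖ with hSdef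
  have hκi : ‖(κ : ℂ)⁻¹‖ = κ⁻¹ := by
    rw [norm_inv, Complex.norm_real, Real.norm_of_nonneg hκ0.le]
  have hu1 : ‖P 1‖ ≤ 2 * S := by
    have h := hmax (((0 : ℕ) : ℤ) + 1)
    rw [huP, norm_mul, norm_pow, hκi, zero_add, pow_one, ← div_eq_mul_inv, div_le_iff₀ hκ0] at h
    have hS0 : 0 ≤ S := norm_nonneg _
    have : S * κ ≤ S * 2 := mul_le_mul_of_nonneg_left hκ2 hS0
    linarith
  have hu0 : ‖Q 1‖ ≤ 2 * S := by
    have h := hmax (-((0 : ℕ) : ℤ))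
    rw [huQ, norm_mul, norm_pow, hκi, zero_add, pow_one, ← div_eq_mul_inv, div_le_iff₀ hκ0] at h
    have hS0 : 0 ≤ S := norm_nonneg _
    have : S * κ ≤ S * 2 := mul_le_mul_of_nonneg_left hκ2 hS0
    linarith
  have hεκ : 2 * ε * κ ≤ 4 * ε := by
    have := mul_le_mul_of_nonneg_left hκ2 (by positivity : 0 ≤ 2 * ε)
    linarith
  refine ⟨fun n => if 1 ≤ n then 1 else b' (-n).toNat, fun n => if 0 ≤ n then b n.toNat else 1,
    u, S, ?_, ?_, ⟨n0, rfl⟩, hmax, ?_, ?_, ?_⟩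
  · intro n
    by_cases h : 1 ≤ n
    · left; simp only [h, if_true]
    · simp only [h, if_false]; exact hb' _
  · intro n
    by_cases h : 0 ≤ n
    · simp only [h, if_true]; exact hb _
    · left; simp only [h, if_false]
  · calc ‖q‖ = ‖P 1 - (P 1 - q)‖ := by congr 1; ring
      _ ≤ ‖P 1‖ + ‖P 1 - q‖ := norm_sub_le _ _
      _ ≤ 2 * S + 4 * ε := by linarith
  · calc ‖p‖ = ‖Q 1 - (Q 1 - p)‖ := by congr 1; ring
      _ ≤ ‖Q 1‖ + ‖Q 1 - p‖ := norm_sub_le _ _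
      _ ≤ 2 * S + 4 * ε := by linarith
  · intro n
    have hPQ : ‖Q 1 - P 0‖ ≤ 3 * ε * κ := by
      have h1 : ‖Q 1 - P 0‖ ≤ ‖Q 1 - p‖ + ‖P 0 - p‖ := by
        calc ‖Q 1 - P 0‖ = ‖(Q 1 - p) - (P 0 - p)‖ := by congr 1; ring
          _ ≤ _ := norm_sub_le _ _
      have : ε * 1 ≤ ε * κ := mul_le_mul_of_nonneg_left hκ.le hε
      linarith
    have hQP : ‖P 1 - Q 0‖ ≤ 3 * ε * κ := by
      have h1 : ‖P 1 - Q 0‖ ≤ ‖P 1 - q‖ + ‖Q 0 - q‖ := by
        calc ‖P 1 - Q 0‖ = ‖(P 1 - q) - (Q 0 - q)‖ := by congr 1; ring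
          _ ≤ _ := norm_sub_le _ _
      have : ε * 1 ≤ ε * κ := mul_le_mul_of_nonneg_left hκ.le hε
      linarith
    rcases hcase n with ⟨j, rfl⟩ | ⟨j, rfl⟩
    · have h1 : (1 : ℤ) ≤ (j : ℤ) + 1 := by omega
      have h2 : (0 : ℤ) ≤ (j : ℤ) + 1 - 1 := by omega
      have h3 : ((j : ℤ) + 1 - 1).toNat = j := by omega
      have h4 : ((j : ℤ) + 1 + 1) = ((j + 1 : ℕ) : ℤ) + 1 := by push_cast; ring
      have h5 : ((j : ℤ) + 1 - 1) = (j : ℤ) := by ring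
      simp only [h1, if_true, h2, h3]
      rw [h4, huP, huP, h5, one_mul]
      refine nf_core hκ hκ2 hε (hb j) (hPr j) ?_ ?_
      · have := hmax (((j + 1 : ℕ) : ℤ) + 1)
        rwa [huP] at this
      · rcases Nat.eq_zero_or_pos j with hj | hj
        · subst hj
          have hz : ((0 : ℕ) : ℤ) = -((0 : ℕ) : ℤ) := by simp
          rw [hz, huQ]
          simp only [zero_add, pow_one]
          have : Q 1 * (κ : ℂ)⁻¹ - P 0 * (κ : ℂ)⁻¹ = (Q 1 - P 0) * (κ : ℂ)⁻¹ := by ring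
          rw [this, norm_mul, hκi, ← div_eq_mul_inv, div_le_iff₀ hκ0]
          have hS0 : 0 ≤ (κ - 1) * S := mul_nonneg (by linarith) (norm_nonneg _)
          have := mul_nonneg hS0 hκ0.le
          linarith
        · obtain ⟨i, rfl⟩ : ∃ i, j = i + 1 := ⟨j - 1, by omega⟩
          have hc : (((i + 1 : ℕ) : ℤ)) = (i : ℤ) + 1 := by push_cast; ring
          rw [hc, huP]
          have hi := hmax ((i : ℤ) + 1)
          rw [huP] at hi
          exact nf_nb hκ hε hi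
    · rcases Nat.eq_zero_or_pos j with hj | hj
      · subst hj
        have hz : -((0 : ℕ) : ℤ) = 0 := by simp
        have e1 : u (-((0 : ℕ) : ℤ) + 1) = P 1 * (κ : ℂ)⁻¹ := by
          have := huP 0
          rw [zero_add, pow_one] at this
          rw [← this]; congr 1
        have e2 : u (-((0 : ℕ) : ℤ) - 1) = Q (0 + 2) * ((κ : ℂ)⁻¹) ^ (0 + 2) := by
          have := huQ 1
          rw [← this]; congr 1
        have e3 : u (-((0 : ℕ) : ℤ)) = Q (0 + 1) * ((κ : ℂ)⁻¹) ^ (0 + 1) := huQ 0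
        rw [e1, e2, e3]
        simp only [hz, neg_zero, Int.toNat_zero]
        have h1 : ¬ (1 : ℤ) ≤ 0 := by norm_num
        have h2 : ¬ (0 : ℤ) ≤ 0 - 1 := by norm_num
        simp only [h1, if_false, h2]
        have hre : b' 0 * (P 1 * (κ : ℂ)⁻¹) + 1 * (Q (0 + 2) * ((κ : ℂ)⁻¹) ^ (0 + 2))
            - z * (Q (0 + 1) * ((κ : ℂ)⁻¹) ^ (0 + 1))
            = Q (0 + 2) * ((κ : ℂ)⁻¹) ^ (0 + 2) + b' 0 * (P 1 * (κ : ℂ)⁻¹)
            - z * (Q (0 + 1) * ((κ : ℂ)⁻¹) ^ (0 + 1)) := by ring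
        rw [hre]
        refine nf_core hκ hκ2 hε (hb' 0) (hQr 0) ?_ ?_
        · have := hmax (-((1 : ℕ) : ℤ))
          rwa [huQ] at this
        · simp only [zero_add, pow_one]
          have : P 1 * (κ : ℂ)⁻¹ - Q 0 * (κ : ℂ)⁻¹ = (P 1 - Q 0) * (κ : ℂ)⁻¹ := by ring
          rw [this, norm_mul, hκi, ← div_eq_mul_inv, div_le_iff₀ hκ0]
          have hS0 : 0 ≤ (κ - 1) * S := mul_nonneg (by linarith) (norm_nonneg _)
          have := mul_nonneg hS0 hκ0.le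
          linarith
      · obtain ⟨i, rfl⟩ : ∃ i, j = i + 1 := ⟨j - 1, by omega⟩
        have e1 : u (-((i + 1 : ℕ) : ℤ) + 1) = Q (i + 1) * ((κ : ℂ)⁻¹) ^ (i + 1) := by
          rw [← huQ i]; congr 1; push_cast; ring
        have e2 : u (-((i + 1 : ℕ) : ℤ) - 1) = Q (i + 1 + 2) * ((κ : ℂ)⁻¹) ^ (i + 1 + 2) := by
          have := huQ (i + 2)
          rw [show i + 1 + 2 = i + 2 + 1 by ring, ← this]; congr 1 <;> omega
        have e3 : u (-((i + 1 : ℕ) : ℤ)) = Q (i + 1 + 1) * ((κ : ℂ)⁻¹) ^ (i + 1 + 1) := huQ (i + 1)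
        rw [e1, e2, e3]
        have h1 : ¬ (1 : ℤ) ≤ -((i + 1 : ℕ) : ℤ) := by push_cast; omega
        have h2 : ¬ (0 : ℤ) ≤ -((i + 1 : ℕ) : ℤ) - 1 := by push_cast; omega
        have h3 : (- -((i + 1 : ℕ) : ℤ)).toNat = i + 1 := by push_cast; omega
        simp only [h1, if_false, h2, h3]
        have hre : b' (i + 1) * (Q (i + 1) * ((κ : ℂ)⁻¹) ^ (i + 1))
            + 1 * (Q (i + 1 + 2) * ((κ : ℂ)⁻¹) ^ (i + 1 + 2))
            - z * (Q (i + 1 + 1) * ((κ : ℂ)⁻¹) ^ (i + 1 + 1))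
            = Q (i + 1 + 2) * ((κ : ℂ)⁻¹) ^ (i + 1 + 2)
            + b' (i + 1) * (Q (i + 1) * ((κ : ℂ)⁻¹) ^ (i + 1))
            - z * (Q (i + 1 + 1) * ((κ : ℂ)⁻¹) ^ (i + 1 + 1)) := by ring
        rw [hre]
        refine nf_core hκ hκ2 hε (hb' (i + 1)) (hQr (i + 1)) ?_ ?_
        · have := hmax (-((i + 2 : ℕ) : ℤ))
          rwa [huQ] at this
        · have hi := hmax (-(i : ℤ))
          rw [huQ] at hi
          exact nf_nb hκ hε hi
/- END nf -/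

/- MODULE ng
Positivity: with `(κ - 1) C ≤ m / 2` the bounds give `S ≤ 2 C ε / m` for every `ε > 0`. -/
theorem NN_pos {m : ℝ} {z : ℂ} (hm : 0 < m) (hU : Unif m z) : ∃ κ : ℝ, 1 < κ ∧ ∀ p q : ℂ,
    NN z κ (p, q) = 0 → NN z κ (q, p) = 0 → p = 0 ∧ q = 0 := by
  obtain ⟨C, hC, hres⟩ := residual z
  refine ⟨1 + min 1 (m / (2 * C)), ?_, ?_⟩
  · have : 0 < min 1 (m / (2 * C)) := lt_min one_pos (by positivity)
    linarith
  intro p q h1 h2
  have hmin : 0 < min 1 (m / (2 * C)) := lt_min one_pos (by positivity)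
  set κ := 1 + min 1 (m / (2 * C)) with hκdef
  have hκ1 : 1 < κ := by linarith
  have hκ2 : κ ≤ 2 := by
    have := min_le_left 1 (m / (2 * C))
    linarith
  have hκC : (κ - 1) * C ≤ m / 2 := by
    have h3 := min_le_right 1 (m / (2 * C))
    have h4 : (κ - 1) * C ≤ m / (2 * C) * C :=
      mul_le_mul_of_nonneg_right (by linarith) hC.le
    have h5 : m / (2 * C) * C = m / 2 := by field_simp
    linarith
  have key : ∀ ε : ℝ, 0 < ε → ‖q‖ ≤ (4 * C / m + 4) * ε ∧ ‖p‖ ≤ (4 * C / m + 4) * ε := by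
    intro ε hε
    obtain ⟨b, P, hb, hP, hP0, hP1, hPr⟩ := PO_scal hκ1 hε.le (PO_of_lt hκ1 (h1.le.trans_lt hε))
    obtain ⟨b', Q, hb', hQ, hQ0, hQ1, hQr⟩ := PO_scal hκ1 hε.le (PO_of_lt hκ1 (h2.le.trans_lt hε))
    obtain ⟨A, B, u, S, hA, hB, ⟨n0, hn0⟩, hS, hq, hp, hr⟩ :=
      hres κ hκ1 hκ2 p q ε hε.le b P b' Q hb hb' hP hQ hP0 hP1 hQ0 hQ1 hPr hQr
    have h6 := lower hU A B hA hB u ⟨S, hS⟩ _ hr n0
    rw [← hn0] at h6
    have hS0 : 0 ≤ S := by rw [hn0]; exact norm_nonneg _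
    have h7 : (κ - 1) * C * S ≤ m / 2 * S := mul_le_mul_of_nonneg_right hκC hS0
    have h8 : S ≤ 2 * C / m * ε := by
      rw [div_mul_eq_mul_div, le_div_iff₀ hm]
      linarith
    constructor
    · calc ‖q‖ ≤ 2 * S + 4 * ε := hq
        _ ≤ 2 * (2 * C / m * ε) + 4 * ε := by linarith
        _ = (4 * C / m + 4) * ε := by ring
    · calc ‖p‖ ≤ 2 * S + 4 * ε := hp
        _ ≤ 2 * (2 * C / m * ε) + 4 * ε := by linarith
        _ = (4 * C / m + 4) * ε := by ring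
  have hK : 0 < 4 * C / m + 4 := by positivity
  constructor
  · rw [← norm_le_zero_iff]
    refine le_of_forall_pos_le_add (fun e he => ?_)
    have := (key (e / (4 * C / m + 4)) (by positivity)).2
    rw [mul_div_cancel₀ _ hK.ne'] at this
    linarith
  · rw [← norm_le_zero_iff]
    refine le_of_forall_pos_le_add (fun e he => ?_)
    have := (key (e / (4 * C / m + 4)) (by positivity)).1
    rw [mul_div_cancel₀ _ hK.ne'] at this
    linarith
/- END ng -/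

/- MODULE nh
`F (p, q) = N (p, q) - N (q, p)`.  `zero`: `N (0, 1) = N (0, -1) ≥ κ N (1, 0)` by `grow` at `(1, 0)`,
and `N (0, 1)`, `N (1, 0)` are not both `0`.  `trans`: if `N (x, 1) ≥ N (1, x)` then `N (x, 1) > 0`,
`N (1, z - x) ≥ κ N (x, 1)` and `κ N (z - x, 1) ≤ N (1, z - (z - x)) = N (1, x) ≤ N (x, 1)`. -/
theorem anti_of_lyap {z : ℂ} {κ : ℝ} {N : ℂ × ℂ → ℝ} (h : Lyap z κ N) :
    Anti z (fun v => N v - N (v.2, v.1)) := by
  have hneg : ∀ p q : ℂ, N (-p, -q) = N (p, q) := by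
    intro p q
    have := h.hom (-1) p q
    simpa using this
  have hev2 : ∀ p q : ℂ, N (q, -p) = N (q, p) := by
    intro p q
    have h1 := hneg (-q) p
    rw [neg_neg] at h1
    rw [h1, h.even]
  have hκ := h.kap
  refine ⟨?_, ?_, ?_, ?_, ?_, ?_⟩
  · exact h.cont.sub (h.cont.comp (continuous_snd.prodMk continuous_fst))
  · intro l p q
    show N (l * p, l * q) - N (l * q, l * p) = ‖l‖ * (N (p, q) - N (q, p))
    rw [h.hom, h.hom]; ring
  · intro p q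
    show N (-p, q) - N (q, -p) = N (p, q) - N (q, p)
    rw [h.even, hev2]
  · intro p q
    show N (q, p) - N (p, q) = -(N (p, q) - N (q, p))
    ring
  · show 0 < N (0, 1) - N (1, 0)
    have h1 := h.grow 1 0
    rw [mul_zero, zero_sub, hev2] at h1
    have h2 := h.nonneg (1, 0)
    rcases eq_or_lt_of_le h2 with h3 | h3
    · have h4 : N (0, 1) ≠ 0 := by
        intro h5
        have := (h.pos 1 0 h3.symm h5).1
        norm_num at this
      have h5 := h.nonneg (0, 1)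
      have : 0 < N (0, 1) := lt_of_le_of_ne h5 (Ne.symm h4)
      rw [← h3]; linarith
    · have : N (1, 0) < κ * N (1, 0) := by
        have := mul_lt_mul_of_pos_right hκ h3
        linarith
      linarith
  · intro x hx
    have hx' : 0 ≤ N (x, 1) - N (1, x) := hx
    show N (z - x, 1) - N (1, z - x) < 0
    have h0 := h.nonneg (x, 1)
    have h00 := h.nonneg (1, x)
    have hpos : 0 < N (x, 1) := by
      rcases eq_or_lt_of_le h0 with h3 | h3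
      · exfalso
        have h4 : N (1, x) = 0 := by linarith
        have := (h.pos x 1 h3.symm h4).2
        norm_num at this
      · exact h3
    have h1 := h.grow x 1
    rw [mul_one] at h1
    have h2 := h.grow (z - x) 1
    rw [mul_one, sub_sub_cancel] at h2
    have h3 := h.nonneg (z - x, 1)
    have h4 : N (x, 1) < κ * N (x, 1) := by
      have := mul_lt_mul_of_pos_right hκ hpos
      linarith
    have h5 : N (z - x, 1) ≤ κ * N (z - x, 1) := by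
      have := mul_le_mul_of_nonneg_right hκ.le h3
      linarith
    linarith
/- END nh -/

theorem exists_anti {m : ℝ} {z : ℂ} (hm : 0 < m) (hU : Unif m z) : ∃ F, Anti z F := by
  obtain ⟨κ, hκ, hp⟩ := NN_pos hm hU
  exact ⟨_, anti_of_lyap (κ := κ) (N := NN z κ) ⟨NN_cont z hκ, NN_nonneg z κ, NN_hom z hκ,
    NN_even z hκ, hκ, NN_grow z hκ, hp⟩⟩

end Pool.Agent.FZE
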