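import Pool.Agent.FZE.AntiX

set_option autoImplicit false

open Matrix

/-!
# The group of a point off the spectrum

PING-PONG.  Points of the sphere = vectors `v = (x, y) ≠ 0`; `𝒦 = {v | v.2 ≠ 0 ∧ v.1 / v.2 ∈ K}`,
`J` = swap, `T = (1 z; 0 1)`, `T' = J T J = (1 0; z 1)`.  `v ∉ 𝒦, v ≠ 0 → J v ∈ 𝒦`.
`𝒫+ = {v | v.2 ≠ 0 ∧ ∃ k ≥ 1, v.1 / v.2 - k z ∈ K}`, `𝒫-` the same with `k ≤ -1`; both are disjoint
from `𝒦`.  Base point: the translates `K + n z` are pairwise disjoint, locally finite, so their union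
is closed and is not all of `ℂ` (connectedness): `w0` outside.
For a reduced word with top letter `T` (`T⁻¹`, `T'`, `T'⁻¹`) which contains a letter `T'^(±1)` the
vector `g (w0, 1)` is in `𝒫+` (`𝒫-`, `J 𝒫+`, `J 𝒫-`); a word in `T` only gives `(w0 + n z, 1)`,
which is not in `𝒦`.  Step: `T` maps `𝒫+` and `𝒦 ⊇ J 𝒫±` into `𝒫+`; `T'` maps `J 𝒫+` into itself and
every `v ≠ 0` not in `𝒦` (so `𝒫±` and the orbit of the start) into `J 𝒫+`.
CONCLUSION: `x ≠ 1`: either `lift x = T^n`, `n ≠ 0`, entry `n z`, or `g (w0,1)` has its ratio in the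
union of the `K + n z`, at distance `≥ η` from `w0`: so `‖g - 1‖` is bounded below.
-/

namespace Pool.Agent.FZE

/-- The matrices `(1 z; 0 1)` (index `0`) and `(1 0; z 1)` (index `1`). -/
noncomputable def gen' (z : ℂ) : Fin 2 → SpecialLinearGroup (Fin 2) ℂ :=
  ![⟨!![1, z; 0, 1], by simp⟩, ⟨!![1, 0; z, 1], by simp⟩]

/-- `(1 z; 0 1)` and `(1 0; z 1)` generate a free group of rank 2 which is discrete. -/
def FreeDisc' (z : ℂ) : Prop :=
  ∃ ε : ℝ, 0 < ε ∧ ∀ x : FreeGroup (Fin 2), x ≠ 1 → ∃ i j,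
    ε ≤ ‖(FreeGroup.lift (gen' z) x : Matrix (Fin 2) (Fin 2) ℂ) i j
      - (1 : Matrix (Fin 2) (Fin 2) ℂ) i j‖

/-- The matrices `(1 1; 0 1)` (index `0`) and `(1 0; ρ 1)` (index `1`). -/
noncomputable def gen (ρ : ℂ) : Fin 2 → SpecialLinearGroup (Fin 2) ℂ :=
  ![⟨!![1, 1; 0, 1], by simp⟩, ⟨!![1, 0; ρ, 1], by simp⟩]

/-- `(1 1; 0 1)` and `(1 0; ρ 1)` generate a free group of rank 2 which is discrete: every
nontrivial word differs from the identity matrix by at least `ε` in some entry. -/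
def FreeDisc (ρ : ℂ) : Prop :=
  ∃ ε : ℝ, 0 < ε ∧ ∀ x : FreeGroup (Fin 2), x ≠ 1 → ∃ i j,
    ε ≤ ‖(FreeGroup.lift (gen ρ) x : Matrix (Fin 2) (Fin 2) ℂ) i j
      - (1 : Matrix (Fin 2) (Fin 2) ℂ) i j‖


/-- The sign of a letter, as an integer. -/
private def sn (b : Bool) : ℤ := if b then 1 else -1

private theorem sn_ne (b : Bool) : sn b ≠ 0 := by cases b <;> simp [sn]

/-- The action of a letter on vectors. -/
private def act (z : ℂ) (l : Fin 2 × Bool) (v : ℂ × ℂ) : ℂ × ℂ :=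
  if l.1 = 0 then (v.1 + sn l.2 * z * v.2, v.2) else (v.1, v.2 + sn l.2 * z * v.1)

/-- The ratio is in `K`. -/
private def Kc (K : Set ℂ) (v : ℂ × ℂ) : Prop := v.2 ≠ 0 ∧ v.1 / v.2 ∈ K

/-- The ratio is in a translate of `K` by a positive (negative) multiple of `z`. -/
private def Pp (K : Set ℂ) (z : ℂ) (b : Bool) (v : ℂ × ℂ) : Prop :=
  v.2 ≠ 0 ∧ ∃ k : ℕ, 1 ≤ k ∧ v.1 / v.2 - ((sn b * k : ℤ) : ℂ) * z ∈ K

private theorem Pp_ne {K : Set ℂ} {z : ℂ} {b : Bool} {v : ℂ × ℂ} (h : Pp K z b v) : v ≠ 0 := by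
  rintro rfl
  exact h.1 rfl

private theorem Pp_out {K : Set ℂ} {z : ℂ} (hK : ∀ n : ℤ, n ≠ 0 → ∀ w ∈ K, w + n * z ∉ K)
    {b : Bool} {v : ℂ × ℂ} (h : Pp K z b v) : ¬ Kc K v := by
  rintro ⟨_, h2⟩
  obtain ⟨_, k, hk, h3⟩ := h
  have := hK (sn b * k) (mul_ne_zero (sn_ne b) (by exact_mod_cast (by omega : k ≠ 0))) _ h3
  exact this (by simpa using h2)

private theorem zero_mem {K : Set ℂ} (hc : IsCompact K)
    (hd : ∀ w : ℂ, w ≠ 0 → w ∈ K ∨ w⁻¹ ∈ K) : (0 : ℂ) ∈ K := by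
  obtain ⟨R, hR⟩ := hc.isBounded.subset_closedBall (0 : ℂ)
  rw [← hc.isClosed.closure_eq, Metric.mem_closure_iff]
  intro ε hε
  set t : ℝ := |R| + 1 + 1 / ε with ht
  have htp : 0 < t := by positivity
  have h1 : ((t : ℝ) : ℂ) ≠ 0 := by exact_mod_cast htp.ne'
  have h2 : ((t : ℝ) : ℂ) ∉ K := by
    intro h
    have := hR h
    rw [mem_closedBall_zero_iff, Complex.norm_real, Real.norm_of_nonneg htp.le] at this
    have h3 : R ≤ |R| := le_abs_self R
    have h4 : 0 < 1 / ε := by positivity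
    linarith
  refine ⟨((t : ℝ) : ℂ)⁻¹, (hd _ h1).resolve_left h2, ?_⟩
  rw [dist_eq_norm, zero_sub, norm_neg, norm_inv, Complex.norm_real, Real.norm_of_nonneg htp.le]
  have h3 : 1 / ε < t := by
    have : 0 ≤ |R| := abs_nonneg R
    linarith
  rw [inv_lt_comm₀ htp hε]
  simpa using h3

private theorem dual {K : Set ℂ} (h0 : (0 : ℂ) ∈ K) (hd : ∀ w : ℂ, w ≠ 0 → w ∈ K ∨ w⁻¹ ∈ K)
    {v : ℂ × ℂ} (hv : v ≠ 0) (h : ¬ Kc K v) : Kc K v.swap := by
  obtain ⟨x, y⟩ := v
  by_cases hy : y = 0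
  · subst hy
    have hx : x ≠ 0 := by
      rintro rfl
      exact hv rfl
    exact ⟨hx, by simpa using h0⟩
  · have h1 : x / y ∉ K := fun h1 => h ⟨hy, h1⟩
    have hx : x ≠ 0 := by
      rintro rfl
      exact h1 (by simpa using h0)
    refine ⟨hx, ?_⟩
    have h2 := (hd (x / y) (div_ne_zero hx hy)).resolve_left h1
    simpa using h2

private theorem act_swap (z : ℂ) (b : Bool) (v : ℂ × ℂ) :
    (act z (1, b) v).swap = act z (0, b) v.swap := by
  simp [act]

private theorem stepT {K : Set ℂ} {z : ℂ} {b : Bool} {v : ℂ × ℂ} (h : Kc K v) :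
    Pp K z b (act z (0, b) v) := by
  obtain ⟨h1, h2⟩ := h
  refine ⟨by simpa [act] using h1, 1, le_rfl, ?_⟩
  have : (act z (0, b) v).1 / (act z (0, b) v).2 - ((sn b * (1 : ℕ) : ℤ) : ℂ) * z = v.1 / v.2 := by
    simp only [act, if_true]
    push_cast
    field_simp
    ring
  rw [this]
  exact h2

private theorem stepTT {K : Set ℂ} {z : ℂ} {b : Bool} {v : ℂ × ℂ} (h : Pp K z b v) :
    Pp K z b (act z (0, b) v) := by
  obtain ⟨h1, k, hk, h2⟩ := h
  refine ⟨by simpa [act] using h1, k + 1, by omega, ?_⟩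
  have : (act z (0, b) v).1 / (act z (0, b) v).2 - ((sn b * (k + 1 : ℕ) : ℤ) : ℂ) * z =
      v.1 / v.2 - ((sn b * k : ℤ) : ℂ) * z := by
    simp only [act, if_true]
    push_cast
    field_simp
    ring
  rw [this]
  exact h2

/-- The state after the top letter `l`. -/
private def State (K : Set ℂ) (z : ℂ) (l : Fin 2 × Bool) (v : ℂ × ℂ) : Prop :=
  if l.1 = 0 then Pp K z l.2 v else Pp K z l.2 v.swap

/-- The image of the base point. -/
private def vec (z w0 : ℂ) : List (Fin 2 × Bool) → ℂ × ℂ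
  | [] => (w0, 1)
  | l :: L => act z l (vec z w0 L)

private theorem vec_rep (z w0 : ℂ) (b : Bool) (n : ℕ) :
    vec z w0 (List.replicate n (0, b)) = (w0 + ((sn b * n : ℤ) : ℂ) * z, 1) := by
  induction n with
  | zero => simp [vec]
  | succ n ih =>
    rw [List.replicate_succ, vec, ih]
    simp only [act, if_true]
    push_cast
    ring_nf

private theorem inv_vec {K : Set ℂ} {z w0 : ℂ} (hc : IsCompact K)
    (hd : ∀ w : ℂ, w ≠ 0 → w ∈ K ∨ w⁻¹ ∈ K)
    (hK : ∀ n : ℤ, n ≠ 0 → ∀ w ∈ K, w + n * z ∉ K) (hw : ∀ n : ℤ, w0 + n * z ∉ K) :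
    ∀ L : List (Fin 2 × Bool), FreeGroup.IsReduced L →
      (∃ b n, L = List.replicate n (0, b)) ∨
        ∃ l L', L = l :: L' ∧ State K z l (vec z w0 L)
  | [], _ => Or.inl ⟨true, 0, rfl⟩
  | l :: L, hL => by
    have h0 := zero_mem hc hd
    have hL' : FreeGroup.IsReduced L := by
      cases L with
      | nil => exact FreeGroup.IsReduced.nil
      | cons a L => exact (FreeGroup.isReduced_cons_cons.1 hL).2
    obtain ⟨i, b⟩ := l
    rcases inv_vec hc hd hK hw L hL' with ⟨b', n, rfl⟩ | ⟨l', L', rfl, hs⟩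
    · fin_cases i
      · left
        cases n with
        | zero => exact ⟨b, 1, rfl⟩
        | succ n =>
          rw [List.replicate_succ] at hL
          have hb : b = b' := (FreeGroup.isReduced_cons_cons.1 hL).1 rfl
          subst hb
          exact ⟨b, n + 2, by simp [List.replicate_succ]⟩
      · right
        refine ⟨(1, b), List.replicate n (0, b'), rfl, ?_⟩
        have h1 : ¬ Kc K (vec z w0 (List.replicate n (0, b'))) := by
          rw [vec_rep]
          rintro ⟨_, h2⟩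
          apply hw (sn b' * n)
          simpa using h2
        have h2 : vec z w0 (List.replicate n (0, b')) ≠ 0 := by
          rw [vec_rep]
          intro h
          have := congrArg Prod.snd h
          simp at this
        have h3 := dual h0 hd h2 h1
        simp only [State, vec]
        rw [if_neg (by simp)]
        show Pp K z b (act z (1, b) _).swap
        rw [act_swap]
        exact stepT h3
    · right
      refine ⟨(i, b), l' :: L', rfl, ?_⟩
      obtain ⟨i', b'⟩ := l'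
      have hr := (FreeGroup.isReduced_cons_cons.1 hL).1
      set v := vec z w0 ((i', b') :: L') with hv
      have hvec : vec z w0 ((i, b) :: (i', b') :: L') = act z (i, b) v := rfl
      rw [hvec]
      fin_cases i
      · show Pp K z b (act z (0, b) v)
        fin_cases i'
        · have hb : b = b' := hr rfl
          subst hb
          exact stepTT hs
        · have hs' : Pp K z b' v.swap := hs
          have h3 := dual h0 hd (Pp_ne hs') (Pp_out hK hs')
          rw [Prod.swap_swap] at h3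
          exact stepT h3
      · show Pp K z b (act z (1, b) v).swap
        rw [act_swap]
        fin_cases i'
        · have hs' : Pp K z b' v := hs
          exact stepT (dual h0 hd (Pp_ne hs') (Pp_out hK hs'))
        · have hb : b = b' := hr rfl
          subst hb
          have hs' : Pp K z b v.swap := hs
          exact stepTT hs'

private theorem exists_base {K : Set ℂ} {z : ℂ} (hc : IsCompact K) (h0 : (0 : ℂ) ∈ K)
    (hK : ∀ n : ℤ, n ≠ 0 → ∀ w ∈ K, w + n * z ∉ K) :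
    ∃ w0 : ℂ, ∃ η : ℝ, 0 < η ∧ ∀ w, ‖w - w0‖ < η → ∀ n : ℤ, w + n * z ∉ K := by
  have hz : z ≠ 0 := by
    rintro rfl
    exact hK 1 one_ne_zero 0 h0 (by simpa using h0)
  have hzn : 0 < ‖z‖ := norm_pos_iff.2 hz
  let F : ℤ → Set ℂ := fun n => (fun w => w + n * z) ⁻¹' K
  have hF : ∀ n, IsClosed (F n) := fun n => hc.isClosed.preimage (by fun_prop)
  obtain ⟨R, hR⟩ := hc.isBounded.subset_closedBall (0 : ℂ)
  have hlf : LocallyFinite F := by
    intro x
    refine ⟨Metric.ball x 1, Metric.ball_mem_nhds x one_pos, ?_⟩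
    refine (Set.finite_Icc (-⌈(‖x‖ + 1 + R) / ‖z‖⌉) ⌈(‖x‖ + 1 + R) / ‖z‖⌉).subset ?_
    rintro n ⟨w, hw, hwx⟩
    have h1 : ‖w + n * z‖ ≤ R := by simpa using hR hw
    have h2 : ‖w‖ ≤ ‖x‖ + 1 := by
      rw [Metric.mem_ball, dist_eq_norm] at hwx
      calc ‖w‖ = ‖(w - x) + x‖ := by ring_nf
        _ ≤ ‖w - x‖ + ‖x‖ := norm_add_le _ _
        _ ≤ ‖x‖ + 1 := by linarith
    have h3 : |(n : ℝ)| * ‖z‖ ≤ ‖x‖ + 1 + R := by
      have : ‖(n : ℂ) * z‖ ≤ ‖w + n * z‖ + ‖w‖ := by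
        calc ‖(n : ℂ) * z‖ = ‖(w + n * z) - w‖ := by ring_nf
          _ ≤ _ := norm_sub_le _ _
      rw [norm_mul, Complex.norm_intCast] at this
      linarith
    have h4 : |(n : ℝ)| ≤ (‖x‖ + 1 + R) / ‖z‖ := by rwa [le_div_iff₀ hzn]
    have h5 := h4.trans (Int.le_ceil _)
    rw [abs_le] at h5
    constructor
    · exact_mod_cast h5.1
    · exact_mod_cast h5.2
  have hcl : ∀ s : Set ℤ, IsClosed (⋃ n ∈ s, F n) := by
    intro s
    have : (⋃ n ∈ s, F n) = ⋃ n : s, F n := by simp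
    rw [this]
    exact (hlf.comp_injective Subtype.val_injective).isClosed_iUnion fun n => hF n
  have hne : (⋃ n : ℤ, F n) ≠ Set.univ := by
    intro hu
    have hA : IsClosed (F 0) := hF 0
    have hB : IsClosed (⋃ n ∈ {n : ℤ | n ≠ 0}, F n) := hcl _
    have hcov : (Set.univ : Set ℂ) ⊆ F 0 ∪ ⋃ n ∈ {n : ℤ | n ≠ 0}, F n := by
      intro w _
      have : w ∈ ⋃ n : ℤ, F n := by rw [hu]; trivial
      obtain ⟨n, hn⟩ := Set.mem_iUnion.1 this
      by_cases h : n = 0
      · left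
        rw [← h]
        exact hn
      · right
        exact Set.mem_biUnion (show n ∈ {n : ℤ | n ≠ 0} from h) hn
    have hpre : IsPreconnected (Set.univ : Set ℂ) := isPreconnected_univ
    rw [isPreconnected_closed_iff] at hpre
    obtain ⟨w, -, hw1, hw2⟩ := hpre _ _ hA hB hcov ⟨0, trivial, by simpa [F] using h0⟩
      ⟨-z, trivial, Set.mem_biUnion (show (1 : ℤ) ∈ {n : ℤ | n ≠ 0} from one_ne_zero)
        (by simpa [F] using h0)⟩
    simp only [Set.mem_iUnion, Set.mem_ofPred_eq] at hw2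
    obtain ⟨n, hn, hw2⟩ := hw2
    have hw1' : w ∈ K := by simpa [F] using hw1
    exact hK n hn w hw1' hw2
  obtain ⟨w0, hw0⟩ : ∃ w0, w0 ∉ ⋃ n : ℤ, F n := by
    by_contra h
    push Not at h
    exact hne (Set.eq_univ_of_forall h)
  have hop : IsOpen (⋃ n : ℤ, F n)ᶜ := (hlf.isClosed_iUnion hF).isOpen_compl
  obtain ⟨η, hη, hball⟩ := Metric.isOpen_iff.1 hop w0 hw0
  refine ⟨w0, η, hη, fun w hw n hn => ?_⟩
  have := hball (show w ∈ Metric.ball w0 η by rwa [Metric.mem_ball, dist_eq_norm])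
  exact this (Set.mem_iUnion.2 ⟨n, hn⟩)

/-- The matrix of a word. -/
private noncomputable def MM (z : ℂ) (L : List (Fin 2 × Bool)) : SpecialLinearGroup (Fin 2) ℂ :=
  (L.map fun l => cond l.2 (gen' z l.1) (gen' z l.1)⁻¹).prod

private theorem MM_cons (z : ℂ) (l : Fin 2 × Bool) (L : List (Fin 2 × Bool)) :
    MM z (l :: L) = cond l.2 (gen' z l.1) (gen' z l.1)⁻¹ * MM z L := by
  simp [MM]

private theorem letter (z : ℂ) (l : Fin 2 × Bool) :
    ((cond l.2 (gen' z l.1) (gen' z l.1)⁻¹ : SpecialLinearGroup (Fin 2) ℂ) :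
      Matrix (Fin 2) (Fin 2) ℂ) =
      if l.1 = 0 then !![1, sn l.2 * z; 0, 1] else !![1, 0; sn l.2 * z, 1] := by
  obtain ⟨i, b⟩ := l
  fin_cases i <;> cases b <;>
    simp [gen', sn, Matrix.SpecialLinearGroup.coe_inv, Matrix.adjugate_fin_two_of]

private theorem MM_cons' (z : ℂ) (l : Fin 2 × Bool) (L : List (Fin 2 × Bool)) :
    (MM z (l :: L) : Matrix (Fin 2) (Fin 2) ℂ) =
      (if l.1 = 0 then !![1, sn l.2 * z; 0, 1] else !![1, 0; sn l.2 * z, 1]) *
        (MM z L : Matrix (Fin 2) (Fin 2) ℂ) := by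
  rw [← letter]
  exact congrArg Subtype.val (MM_cons z l L)

private theorem MM_vec (z w0 : ℂ) (L : List (Fin 2 × Bool)) :
    (MM z L : Matrix (Fin 2) (Fin 2) ℂ) 0 0 * w0 + (MM z L : Matrix (Fin 2) (Fin 2) ℂ) 0 1 =
        (vec z w0 L).1 ∧
      (MM z L : Matrix (Fin 2) (Fin 2) ℂ) 1 0 * w0 + (MM z L : Matrix (Fin 2) (Fin 2) ℂ) 1 1 =
        (vec z w0 L).2 := by
  induction L with
  | nil => simp [MM, vec]
  | cons l L ih =>
    obtain ⟨h1, h2⟩ := ih
    rw [MM_cons']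
    obtain ⟨i, b⟩ := l
    fin_cases i
    · simp only [Matrix.mul_apply, Fin.sum_univ_two, vec, act]
      simp only [Fin.zero_eta, if_true]
      simp only [Matrix.of_apply, Matrix.cons_val', Matrix.cons_val_zero, Matrix.cons_val_one,
        Matrix.empty_val', Matrix.cons_val_fin_one]
      rw [← h1, ← h2]
      constructor <;> ring
    · simp only [Matrix.mul_apply, Fin.sum_univ_two, vec, act]
      simp only [Fin.mk_one, one_ne_zero, if_false]
      simp only [Matrix.of_apply, Matrix.cons_val', Matrix.cons_val_zero, Matrix.cons_val_one,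
        Matrix.empty_val', Matrix.cons_val_fin_one]
      rw [← h1, ← h2]
      constructor <;> ring

private theorem MM_rep (z : ℂ) (b : Bool) (n : ℕ) :
    (MM z (List.replicate n (0, b)) : Matrix (Fin 2) (Fin 2) ℂ) =
      !![1, ((sn b * n : ℤ) : ℂ) * z; 0, 1] := by
  induction n with
  | zero => simp [MM, Matrix.one_fin_two]
  | succ n ih =>
    rw [List.replicate_succ, MM_cons', ih]
    simp only [if_true]
    ext i j
    fin_cases i <;> fin_cases j <;> simp [Matrix.mul_apply, Fin.sum_univ_two]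
    ring

theorem freeDisc'_of {z : ℂ} {K : Set ℂ} (h : Trap z K) (hcon : IsConnected K) :
    FreeDisc' z := by
  have hc := h.cpt
  have hd : ∀ w : ℂ, w ≠ 0 → w ∈ K ∨ w⁻¹ ∈ K := fun w _ =>
    or_iff_not_imp_left.2 fun hw => h.inv w hw
  have hK : ∀ n : ℤ, n ≠ 0 → ∀ w ∈ K, w + n * z ∉ K := fun n hn w hw hw' =>
    trap_multiples h hcon n hn _ hw' _ hw (by ring)
  have h0 := zero_mem hc hd
  obtain ⟨w0, η, hη, hw⟩ := exists_base hc h0 hK
  have hz : z ≠ 0 := by
    rintro rfl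
    exact hK 1 one_ne_zero 0 h0 (by simpa using h0)
  have hzn : 0 < ‖z‖ := norm_pos_iff.2 hz
  set q : ℝ := 1 + ‖w0‖ with hq
  have hq0 : 0 < q := by positivity
  refine ⟨min ‖z‖ (min (1 / (2 * q)) (η / (2 * q ^ 2))), by positivity, fun x hx => ?_⟩
  set ε : ℝ := min ‖z‖ (min (1 / (2 * q)) (η / (2 * q ^ 2))) with hε
  have hε1 : ε ≤ ‖z‖ := min_le_left _ _
  have hε2 : ε ≤ 1 / (2 * q) := (min_le_right _ _).trans (min_le_left _ _)
  have hε3 : ε ≤ η / (2 * q ^ 2) := (min_le_right _ _).trans (min_le_right _ _)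
  have hlift : FreeGroup.lift (gen' z) x = MM z x.toWord := by
    conv_lhs => rw [← FreeGroup.mk_toWord (x := x)]
    rw [FreeGroup.lift_mk]
    rfl
  rw [hlift]
  have hne : x.toWord ≠ [] := by
    rw [Ne, FreeGroup.toWord_eq_nil_iff]
    exact hx
  have hred : FreeGroup.IsReduced x.toWord := FreeGroup.isReduced_toWord
  rcases inv_vec hc hd hK (fun n => hw w0 (by simpa using hη) n) x.toWord hred with
    ⟨b, n, hn⟩ | ⟨l, L', hl, hs⟩
  · refine ⟨0, 1, ?_⟩
    rw [hn, MM_rep]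
    have hn0 : n ≠ 0 := by
      rintro rfl
      exact hne (by simpa using hn)
    have h1 : (1 : ℝ) ≤ n := by exact_mod_cast Nat.one_le_iff_ne_zero.2 hn0
    have h2 : ‖((sn b * n : ℤ) : ℂ)‖ = n := by
      cases b <;> simp [sn]
    simp only [Matrix.of_apply, Matrix.cons_val', Matrix.cons_val_zero, Matrix.cons_val_one,
      Matrix.empty_val', Matrix.cons_val_fin_one]
    rw [Matrix.one_apply_ne (by simp), sub_zero, norm_mul, h2]
    nlinarith
  · by_contra hcon'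
    push Not at hcon'
    have a00 := hcon' 0 0
    have a01 := hcon' 0 1
    have a10 := hcon' 1 0
    have a11 := hcon' 1 1
    rw [Matrix.one_apply_eq] at a00 a11
    rw [Matrix.one_apply_ne (by simp), sub_zero] at a01 a10
    obtain ⟨hX, hY⟩ := MM_vec z w0 x.toWord
    set A := (MM z x.toWord : Matrix (Fin 2) (Fin 2) ℂ) with hA
    set X := (vec z w0 x.toWord).1 with hXd
    set Y := (vec z w0 x.toWord).2 with hYd
    -- the ratio is in the union of the translates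
    have hrat : ∃ n : ℤ, X / Y + n * z ∈ K := by
      obtain ⟨i, b⟩ := l
      fin_cases i
      · obtain ⟨-, k, -, hk⟩ : Pp K z b (vec z w0 x.toWord) := hs
        refine ⟨-(sn b * k), ?_⟩
        have : X / Y + ((-(sn b * k) : ℤ) : ℂ) * z = X / Y - ((sn b * k : ℤ) : ℂ) * z := by
          push_cast
          ring
        rw [this]
        exact hk
      · have hs' : Pp K z b (vec z w0 x.toWord).swap := hs
        have h3 := dual h0 hd (Pp_ne hs') (Pp_out hK hs')
        rw [Prod.swap_swap] at h3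
        exact ⟨0, by simpa using h3.2⟩
    obtain ⟨n, hn⟩ := hrat
    refine hw (X / Y) ?_ n hn
    have hε0 : 0 < ε := by positivity
    have hY1 : ‖Y - 1‖ < ε * q := by
      rw [← hY]
      calc ‖A 1 0 * w0 + A 1 1 - 1‖ = ‖A 1 0 * w0 + (A 1 1 - 1)‖ := by ring_nf
        _ ≤ ‖A 1 0‖ * ‖w0‖ + ‖A 1 1 - 1‖ := by
          rw [← norm_mul]
          exact norm_add_le _ _
        _ < ε * q := by
          have : ‖A 1 0‖ * ‖w0‖ ≤ ε * ‖w0‖ :=
            mul_le_mul_of_nonneg_right a10.le (norm_nonneg _)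
          rw [hq]
          linarith
    have hX1 : ‖X - w0‖ < ε * q := by
      rw [← hX]
      calc ‖A 0 0 * w0 + A 0 1 - w0‖ = ‖(A 0 0 - 1) * w0 + A 0 1‖ := by ring_nf
        _ ≤ ‖A 0 0 - 1‖ * ‖w0‖ + ‖A 0 1‖ := by
          rw [← norm_mul]
          exact norm_add_le _ _
        _ < ε * q := by
          have : ‖A 0 0 - 1‖ * ‖w0‖ ≤ ε * ‖w0‖ :=
            mul_le_mul_of_nonneg_right a00.le (norm_nonneg _)
          rw [hq]
          linarith
    have hεq : ε * q ≤ 1 / 2 := by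
      calc ε * q ≤ 1 / (2 * q) * q := mul_le_mul_of_nonneg_right hε2 hq0.le
        _ = 1 / 2 := by field_simp
    have hYn : 1 / 2 < ‖Y‖ := by
      have : ‖(1 : ℂ)‖ ≤ ‖Y‖ + ‖Y - 1‖ := by
        calc ‖(1 : ℂ)‖ = ‖Y - (Y - 1)‖ := by ring_nf
          _ ≤ _ := norm_sub_le _ _
      rw [norm_one] at this
      linarith
    have hY0 : Y ≠ 0 := by
      intro h
      rw [h, norm_zero] at hYn
      linarith
    have hdiff : X / Y - w0 = (X - w0 * Y) / Y := by
      field_simp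
    rw [hdiff, norm_div, div_lt_iff₀ (by linarith)]
    have h1 : ‖X - w0 * Y‖ < ε * q ^ 2 := by
      calc ‖X - w0 * Y‖ = ‖(X - w0) - w0 * (Y - 1)‖ := by ring_nf
        _ ≤ ‖X - w0‖ + ‖w0‖ * ‖Y - 1‖ := by
          rw [← norm_mul]
          exact norm_sub_le _ _
        _ < ε * q + ‖w0‖ * (ε * q) := by
          have : ‖w0‖ * ‖Y - 1‖ ≤ ‖w0‖ * (ε * q) :=
            mul_le_mul_of_nonneg_left hY1.le (norm_nonneg _)
          linarith
        _ = ε * q ^ 2 := by rw [hq]; ring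
    have h2 : ε * q ^ 2 ≤ η / 2 := by
      calc ε * q ^ 2 ≤ η / (2 * q ^ 2) * q ^ 2 :=
            mul_le_mul_of_nonneg_right hε3 (by positivity)
        _ = η / 2 := by field_simp
    nlinarith

private noncomputable def MR (ρ : ℂ) (L : List (Fin 2 × Bool)) : SpecialLinearGroup (Fin 2) ℂ :=
  (L.map fun l => cond l.2 (gen ρ l.1) (gen ρ l.1)⁻¹).prod

private theorem letterR (ρ : ℂ) (l : Fin 2 × Bool) :
    ((cond l.2 (gen ρ l.1) (gen ρ l.1)⁻¹ : SpecialLinearGroup (Fin 2) ℂ) :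
      Matrix (Fin 2) (Fin 2) ℂ) =
      if l.1 = 0 then !![1, (sn l.2 : ℂ); 0, 1] else !![1, 0; sn l.2 * ρ, 1] := by
  obtain ⟨i, b⟩ := l
  fin_cases i <;> cases b <;>
    simp [gen, sn, Matrix.SpecialLinearGroup.coe_inv, Matrix.adjugate_fin_two_of]

private theorem MR_cons (ρ : ℂ) (l : Fin 2 × Bool) (L : List (Fin 2 × Bool)) :
    (MR ρ (l :: L) : Matrix (Fin 2) (Fin 2) ℂ) =
      (if l.1 = 0 then !![1, (sn l.2 : ℂ); 0, 1] else !![1, 0; sn l.2 * ρ, 1]) *
        (MR ρ L : Matrix (Fin 2) (Fin 2) ℂ) := by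
  rw [← letterR]
  have h : MR ρ (l :: L) = cond l.2 (gen ρ l.1) (gen ρ l.1)⁻¹ * MR ρ L := by simp [MR]
  exact congrArg Subtype.val h

/-- Conjugation by `diag (z, 1)`. -/
private theorem cnj (z : ℂ) (L : List (Fin 2 × Bool)) :
    (MM z L : Matrix (Fin 2) (Fin 2) ℂ) 0 0 = (MR (z ^ 2) L : Matrix (Fin 2) (Fin 2) ℂ) 0 0 ∧
      (MM z L : Matrix (Fin 2) (Fin 2) ℂ) 0 1 = z * (MR (z ^ 2) L : Matrix (Fin 2) (Fin 2) ℂ) 0 1 ∧
      z * (MM z L : Matrix (Fin 2) (Fin 2) ℂ) 1 0 = (MR (z ^ 2) L : Matrix (Fin 2) (Fin 2) ℂ) 1 0 ∧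
      (MM z L : Matrix (Fin 2) (Fin 2) ℂ) 1 1 = (MR (z ^ 2) L : Matrix (Fin 2) (Fin 2) ℂ) 1 1 := by
  induction L with
  | nil => simp [MM, MR]
  | cons l L ih =>
    obtain ⟨h1, h2, h3, h4⟩ := ih
    rw [MM_cons', MR_cons]
    obtain ⟨i, b⟩ := l
    fin_cases i
    · simp only [Matrix.mul_apply, Fin.sum_univ_two]
      simp only [Fin.zero_eta, if_true]
      simp only [Matrix.of_apply, Matrix.cons_val', Matrix.cons_val_zero, Matrix.cons_val_one,
        Matrix.empty_val', Matrix.cons_val_fin_one]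
      rw [h1, h2, h4, ← h3]
      refine ⟨by ring, by ring, by ring, by ring⟩
    · simp only [Matrix.mul_apply, Fin.sum_univ_two]
      simp only [Fin.mk_one, one_ne_zero, if_false]
      simp only [Matrix.of_apply, Matrix.cons_val', Matrix.cons_val_zero, Matrix.cons_val_one,
        Matrix.empty_val', Matrix.cons_val_fin_one]
      rw [h1, h2, h4, ← h3]
      refine ⟨by ring, by ring, by ring, by ring⟩

theorem freeDisc_of' {z : ℂ} (hz : z ≠ 0) (h : FreeDisc' z) : FreeDisc (z ^ 2) := by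
  obtain ⟨ε, hε, h⟩ := h
  have hzn : 0 < ‖z‖ := norm_pos_iff.2 hz
  refine ⟨min ε (min (ε / ‖z‖) (ε * ‖z‖)), by positivity, fun x hx => ?_⟩
  set δ : ℝ := min ε (min (ε / ‖z‖) (ε * ‖z‖)) with hδ
  have hδ1 : δ ≤ ε := min_le_left _ _
  have hδ2 : δ ≤ ε / ‖z‖ := (min_le_right _ _).trans (min_le_left _ _)
  have hδ3 : δ ≤ ε * ‖z‖ := (min_le_right _ _).trans (min_le_right _ _)
  have hlift : FreeGroup.lift (gen' z) x = MM z x.toWord := by
    conv_lhs => rw [← FreeGroup.mk_toWord (x := x)]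
    rw [FreeGroup.lift_mk]
    rfl
  have hlift' : FreeGroup.lift (gen (z ^ 2)) x = MR (z ^ 2) x.toWord := by
    conv_lhs => rw [← FreeGroup.mk_toWord (x := x)]
    rw [FreeGroup.lift_mk]
    rfl
  obtain ⟨i, j, hij⟩ := h x hx
  rw [hlift] at hij
  rw [hlift']
  obtain ⟨h1, h2, h3, h4⟩ := cnj z x.toWord
  refine ⟨i, j, ?_⟩
  fin_cases i <;> fin_cases j
  · simp only [Fin.zero_eta] at hij ⊢
    rw [← h1]
    linarith
  · simp only [Fin.zero_eta, Fin.mk_one] at hij ⊢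
    rw [Matrix.one_apply_ne (by simp), sub_zero] at hij ⊢
    rw [h2, norm_mul] at hij
    have : ε / ‖z‖ ≤ ‖(MR (z ^ 2) x.toWord : Matrix (Fin 2) (Fin 2) ℂ) 0 1‖ := by
      rw [div_le_iff₀ hzn]
      linarith
    linarith
  · simp only [Fin.zero_eta, Fin.mk_one] at hij ⊢
    rw [Matrix.one_apply_ne (by simp), sub_zero] at hij ⊢
    rw [← h3, norm_mul]
    nlinarith
  · simp only [Fin.mk_one] at hij ⊢
    rw [← h4]
    linarith

theorem freeDisc_of {z : ℂ} {K : Set ℂ} (h : Trap z K) (hcon : IsConnected K) :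
    FreeDisc (z ^ 2) := by
  refine freeDisc_of' ?_ (freeDisc'_of h hcon)
  rintro rfl
  exact h.sep 0 h.zero 0 h.zero (by simp)

end Pool.Agent.FZE
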