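import Pool.Agent.FZE.Digits

set_option autoImplicit false

/-!
# The Shimizu - Leutbecher inequality for the group of a connected trap
-/

namespace Pool.Agent.FZE

open Filter Topology

/-- `SL(2, ℂ)`. -/
abbrev SLC := Matrix.SpecialLinearGroup (Fin 2) ℂ

/-- `w ↦ w + z`. -/
noncomputable def mT (z : ℂ) : SLC := ⟨!![1, z; 0, 1], by simp [Matrix.det_fin_two_of]⟩
/-- `w ↦ -w`. -/
noncomputable def mE : SLC := ⟨!![Complex.I, 0; 0, -Complex.I], by simp [Matrix.det_fin_two_of]⟩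
/-- `w ↦ 1 / w`. -/
noncomputable def mI : SLC := ⟨!![0, Complex.I; Complex.I, 0], by simp [Matrix.det_fin_two_of]⟩

/-- The group generated by the three maps. -/
noncomputable def GG (z : ℂ) : Subgroup SLC := Subgroup.closure {mT z, mE, mI}

section entries

theorem mul00 (g h : SLC) : (g * h) 0 0 = g 0 0 * h 0 0 + g 0 1 * h 1 0 := by
  rw [Matrix.SpecialLinearGroup.coe_mul, Matrix.mul_apply, Fin.sum_univ_two]
theorem mul01 (g h : SLC) : (g * h) 0 1 = g 0 0 * h 0 1 + g 0 1 * h 1 1 := by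
  rw [Matrix.SpecialLinearGroup.coe_mul, Matrix.mul_apply, Fin.sum_univ_two]
theorem mul10 (g h : SLC) : (g * h) 1 0 = g 1 0 * h 0 0 + g 1 1 * h 1 0 := by
  rw [Matrix.SpecialLinearGroup.coe_mul, Matrix.mul_apply, Fin.sum_univ_two]
theorem mul11 (g h : SLC) : (g * h) 1 1 = g 1 0 * h 0 1 + g 1 1 * h 1 1 := by
  rw [Matrix.SpecialLinearGroup.coe_mul, Matrix.mul_apply, Fin.sum_univ_two]

theorem inv00 (g : SLC) : (g⁻¹ : SLC) 0 0 = g 1 1 := by
  rw [Matrix.SpecialLinearGroup.coe_inv, Matrix.adjugate_fin_two]; rfl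
theorem inv01 (g : SLC) : (g⁻¹ : SLC) 0 1 = -g 0 1 := by
  rw [Matrix.SpecialLinearGroup.coe_inv, Matrix.adjugate_fin_two]; rfl
theorem inv10 (g : SLC) : (g⁻¹ : SLC) 1 0 = -g 1 0 := by
  rw [Matrix.SpecialLinearGroup.coe_inv, Matrix.adjugate_fin_two]; rfl
theorem inv11 (g : SLC) : (g⁻¹ : SLC) 1 1 = g 0 0 := by
  rw [Matrix.SpecialLinearGroup.coe_inv, Matrix.adjugate_fin_two]; rfl

theorem detg (g : SLC) : g 0 0 * g 1 1 - g 0 1 * g 1 0 = 1 := by
  have := g.det_coe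
  rwa [Matrix.det_fin_two] at this

theorem ext4 {g h : SLC} (h00 : g 0 0 = h 0 0) (h01 : g 0 1 = h 0 1) (h10 : g 1 0 = h 1 0)
    (h11 : g 1 1 = h 1 1) : g = h := by
  apply Matrix.SpecialLinearGroup.ext
  intro i j
  fin_cases i <;> fin_cases j
  · exact h00
  · exact h01
  · exact h10
  · exact h11

@[simp] theorem mT00 (z : ℂ) : mT z 0 0 = 1 := rfl
@[simp] theorem mT01 (z : ℂ) : mT z 0 1 = z := rfl
@[simp] theorem mT10 (z : ℂ) : mT z 1 0 = 0 := rfl
@[simp] theorem mT11 (z : ℂ) : mT z 1 1 = 1 := rfl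
@[simp] theorem mE00 : mE 0 0 = Complex.I := rfl
@[simp] theorem mE01 : mE 0 1 = 0 := rfl
@[simp] theorem mE10 : mE 1 0 = 0 := rfl
@[simp] theorem mE11 : mE 1 1 = -Complex.I := rfl
@[simp] theorem mI00 : mI 0 0 = 0 := rfl
@[simp] theorem mI01 : mI 0 1 = Complex.I := rfl
@[simp] theorem mI10 : mI 1 0 = Complex.I := rfl
@[simp] theorem mI11 : mI 1 1 = 0 := rfl
@[simp] theorem one00 : (1 : SLC) 0 0 = 1 := rfl
@[simp] theorem one01 : (1 : SLC) 0 1 = 0 := rfl
@[simp] theorem one10 : (1 : SLC) 1 0 = 0 := rfl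
@[simp] theorem one11 : (1 : SLC) 1 1 = 1 := rfl

end entries

/-- The action on vectors. -/
def act (g : SLC) (v : ℂ × ℂ) : ℂ × ℂ := (g 0 0 * v.1 + g 0 1 * v.2, g 1 0 * v.1 + g 1 1 * v.2)

theorem act_mul (g h : SLC) (v : ℂ × ℂ) : act (g * h) v = act g (act h v) := by
  simp only [act, mul00, mul01, mul10, mul11]
  ext
  · simp only; ring
  · simp only; ring

theorem act_one (v : ℂ × ℂ) : act 1 v = v := by
  simp [act]

/-- The cone over a set of points of the plane. -/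
def cone (S : Set ℂ) (v : ℂ × ℂ) : Prop := v.2 ≠ 0 ∧ v.1 / v.2 ∈ S

/-- The common complement of all translates of `K`. -/
def XX (z : ℂ) (K : Set ℂ) : Set ℂ := {x | ∀ n : ℤ, x + n * z ∉ K}

/-- Elements fixing `∞`, with translation number `n`. -/
def InD (z : ℂ) (n : ℤ) (g : SLC) : Prop :=
  g 1 0 = 0 ∧ g 0 0 ^ 4 = 1 ∧ g 0 0 * g 0 1 = n * z

theorem InD.det {z : ℂ} {n : ℤ} {g : SLC} (h : InD z n g) : g 0 0 * g 1 1 = 1 := by
  have := detg g
  rw [h.1, mul_zero, sub_zero] at this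
  exact this

theorem InD.sq {z : ℂ} {n : ℤ} {g : SLC} (h : InD z n g) : g 0 0 ^ 2 = 1 ∨ g 0 0 ^ 2 = -1 := by
  have h1 : (g 0 0 ^ 2 - 1) * (g 0 0 ^ 2 + 1) = 0 := by
    linear_combination h.2.1
  rcases mul_eq_zero.mp h1 with h2 | h2
  · left; linear_combination h2
  · right; linear_combination h2

theorem InD.mul {z : ℂ} {m n : ℤ} {e d : SLC} (he : InD z m e) (hd : InD z n d) :
    ∃ k : ℤ, InD z k (e * d) ∧ (k = m + n ∨ k = m - n) := by
  have h1 := he.det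
  have h2 := hd.det
  rcases he.sq with hs | hs
  · refine ⟨m + n, ⟨?_, ?_, ?_⟩, Or.inl rfl⟩
    · rw [mul10, he.1, hd.1]; ring
    · rw [mul00, hd.1, mul_zero, add_zero, mul_pow, he.2.1, hd.2.1, mul_one]
    · rw [mul00, mul01, hd.1]
      push_cast
      linear_combination hs * d 0 0 * d 0 1 + hd.2.2 + he.2.2 + e 0 0 * e 0 1 * h2
  · refine ⟨m - n, ⟨?_, ?_, ?_⟩, Or.inr rfl⟩
    · rw [mul10, he.1, hd.1]; ring
    · rw [mul00, hd.1, mul_zero, add_zero, mul_pow, he.2.1, hd.2.1, mul_one]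
    · rw [mul00, mul01, hd.1]
      push_cast
      linear_combination hs * d 0 0 * d 0 1 - hd.2.2 + he.2.2 + e 0 0 * e 0 1 * h2

theorem inD_one (z : ℂ) : InD z 0 1 := ⟨rfl, by simp, by simp⟩

theorem inD_mT (z : ℂ) : InD z 1 (mT z) := ⟨rfl, by simp, by simp⟩

theorem inD_mT_inv (z : ℂ) : InD z (-1) (mT z)⁻¹ := by
  refine ⟨?_, ?_, ?_⟩
  · rw [inv10]; simp
  · rw [inv00]; simp
  · rw [inv00, inv01]; simp

theorem inD_mE (z : ℂ) : InD z 0 mE := ⟨rfl, by simp, by simp⟩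

theorem inD_mE_inv (z : ℂ) : InD z 0 mE⁻¹ := by
  refine ⟨?_, ?_, ?_⟩
  · rw [inv10]; simp
  · rw [inv00, mE11, Even.neg_pow (by decide)]; exact Complex.I_pow_four
  · rw [inv00, inv01]; simp

theorem inD_II (z : ℂ) : InD z 0 (mI * mI) := by
  refine ⟨?_, ?_, ?_⟩
  · rw [mul10]; simp
  · rw [mul00]; norm_num
  · rw [mul00, mul01]; simp

theorem II_II : (mI * mI) * (mI * mI) = 1 := by
  apply ext4 <;> simp [mul00, mul01, mul10, mul11]

theorem mI_inv_eq : mI⁻¹ = mI * (mI * mI) := by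
  rw [inv_eq_iff_mul_eq_one, ← mul_assoc]
  exact II_II

/-- `mI` conjugates the elements of `D` fixing `0`. -/
theorem mI_comm {z : ℂ} {d : SLC} (hd : InD z 0 d) :
    ∃ d' : SLC, InD z 0 d' ∧ mI * d = d' * mI := by
  have h1 := hd.det
  have h0 : d 0 0 ≠ 0 := by
    intro h0
    rw [h0, zero_mul] at h1
    exact zero_ne_one h1
  have h01 : d 0 1 = 0 := by
    have := hd.2.2
    simp only [Int.cast_zero, zero_mul, mul_eq_zero] at this
    exact this.resolve_left h0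
  refine ⟨d⁻¹, ⟨?_, ?_, ?_⟩, ?_⟩
  · rw [inv10, hd.1, neg_zero]
  · rw [inv00]
    have h2 : d 1 1 ^ 4 * d 0 0 ^ 4 = 1 := by
      rw [← mul_pow, mul_comm, h1, one_pow]
    rwa [hd.2.1, mul_one] at h2
  · rw [inv00, inv01, h01]; simp
  · apply ext4
    · rw [mul00, mul00, inv00, inv01, hd.1, h01]; simp
    · rw [mul01, mul01, inv00, inv01, h01]; simp [mul_comm]
    · rw [mul10, mul10, inv10, inv11, hd.1]; simp [mul_comm]
    · rw [mul11, mul11, inv10, inv11, hd.1, h01]; simp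

/-- Reduced words beginning with `mI`. -/
inductive Good (z : ℂ) : SLC → Prop
  | one (n : ℤ) (d : SLC) (hd : InD z n d) : Good z (mI * d)
  | cons (n : ℤ) (d : SLC) (hd : InD z n d) (hn : n ≠ 0) (h : SLC) (hh : Good z h) :
      Good z (mI * (d * h))

/-- The normal form. -/
def Nf (z : ℂ) (g : SLC) : Prop :=
  (∃ n, InD z n g) ∨ ∃ (n : ℤ) (d h : SLC), InD z n d ∧ Good z h ∧ g = d * h

theorem Nf.inD_mul {z : ℂ} {m : ℤ} {e g : SLC} (he : InD z m e) (hg : Nf z g) : Nf z (e * g) := by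
  rcases hg with ⟨n, hn⟩ | ⟨n, d, h, hd, hh, rfl⟩
  · obtain ⟨k, hk, -⟩ := he.mul hn
    exact Or.inl ⟨k, hk⟩
  · obtain ⟨k, hk, -⟩ := he.mul hd
    exact Or.inr ⟨k, e * d, h, hk, hh, by rw [mul_assoc]⟩

theorem Nf.mI_mul {z : ℂ} {g : SLC} (hg : Nf z g) : Nf z (mI * g) := by
  rcases hg with ⟨n, hn⟩ | ⟨n, d, h, hd, hh, rfl⟩
  · exact Or.inr ⟨0, 1, mI * g, inD_one z, Good.one n g hn, (one_mul _).symm⟩
  · by_cases hn : n = 0
    · subst hn
      obtain ⟨d', hd', he⟩ := mI_comm hd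
      rw [← mul_assoc, he, mul_assoc]
      apply Nf.inD_mul hd'
      cases hh with
      | one n1 d1 h1 =>
        rw [← mul_assoc]
        exact Nf.inD_mul (inD_II z) (Or.inl ⟨n1, h1⟩)
      | cons n1 d1 h1 hn1 h' hh' =>
        rw [← mul_assoc]
        exact Nf.inD_mul (inD_II z) (Or.inr ⟨n1, d1, h', h1, hh', rfl⟩)
    · exact Or.inr ⟨0, 1, mI * (d * h), inD_one z, Good.cons n d hd hn h hh, (one_mul _).symm⟩

theorem nf_of_mem {z : ℂ} {g : SLC} (hg : g ∈ GG z) : Nf z g := by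
  refine Subgroup.closure_induction_left (p := fun g _ => Nf z g) ?_ ?_ ?_ hg
  · exact Or.inl ⟨0, inD_one z⟩
  · intro x hx y hy hyy
    rcases hx with rfl | rfl | rfl
    · exact Nf.inD_mul (inD_mT z) hyy
    · exact Nf.inD_mul (inD_mE z) hyy
    · exact Nf.mI_mul hyy
  · intro x hx y hy hyy
    rcases hx with rfl | rfl | rfl
    · exact Nf.inD_mul (inD_mT_inv z) hyy
    · exact Nf.inD_mul (inD_mE_inv z) hyy
    · rw [mI_inv_eq, mul_assoc]
      apply Nf.mI_mul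
      exact Nf.inD_mul (inD_II z) hyy

section action

variable {z : ℂ} {K : Set ℂ}

theorem InD.act_snd {n : ℤ} {g : SLC} (h : InD z n g) {v : ℂ × ℂ} (hv : v.2 ≠ 0) :
    (act g v).2 ≠ 0 := by
  have h1 := h.det
  have h11 : g 1 1 ≠ 0 := by
    intro h0; rw [h0, mul_zero] at h1; exact zero_ne_one h1
  simp only [act, h.1, zero_mul, zero_add]
  exact mul_ne_zero h11 hv

theorem InD.act_div {n : ℤ} {g : SLC} (h : InD z n g) {v : ℂ × ℂ} (hv : v.2 ≠ 0) :
    (act g v).1 / (act g v).2 = g 0 0 ^ 2 * (v.1 / v.2) + n * z := by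
  have h1 := h.det
  have h11 : g 1 1 ≠ 0 := by
    intro h0; rw [h0, mul_zero] at h1; exact zero_ne_one h1
  simp only [act, h.1, zero_mul, zero_add]
  rw [div_eq_iff (mul_ne_zero h11 hv), ← h.2.2]
  field_simp
  linear_combination (-(g 0 0 * v.1) - g 0 1 * v.2) * h1

theorem cone_K_of_inD (hK : Trap z K) {n : ℤ} {g : SLC} (h : InD z n g) {v : ℂ × ℂ}
    (hv : cone K v) : ∃ x ∈ K, (act g v).2 ≠ 0 ∧ (act g v).1 / (act g v).2 = x + n * z := by
  rcases h.sq with hs | hs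
  · refine ⟨v.1 / v.2, hv.2, h.act_snd hv.1, ?_⟩
    rw [h.act_div hv.1, hs, one_mul]
  · refine ⟨-(v.1 / v.2), hK.neg _ hv.2, h.act_snd hv.1, ?_⟩
    rw [h.act_div hv.1, hs]; ring

theorem neg_mem_XX (hK : Trap z K) {x : ℂ} (hx : x ∈ XX z K) : -x ∈ XX z K := by
  intro n hn
  have := hK.neg _ hn
  apply hx (-n)
  push_cast
  rw [show x + -(n : ℂ) * z = -(-x + n * z) by ring]
  exact this

theorem add_mem_XX {x : ℂ} (hx : x ∈ XX z K) (m : ℤ) : x + m * z ∈ XX z K := by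
  intro n hn
  apply hx (m + n)
  push_cast
  rw [show x + ((m : ℂ) + n) * z = x + m * z + n * z by ring]
  exact hn

theorem cone_XX_of_inD (hK : Trap z K) {n : ℤ} {g : SLC} (h : InD z n g) {v : ℂ × ℂ}
    (hv : cone (XX z K) v) : cone (XX z K) (act g v) := by
  refine ⟨h.act_snd hv.1, ?_⟩
  rw [h.act_div hv.1]
  rcases h.sq with hs | hs
  · rw [hs, one_mul]; exact add_mem_XX hv.2 n
  · rw [hs, neg_one_mul]; exact add_mem_XX (neg_mem_XX hK hv.2) n

theorem cone_K_mI (hK : Trap z K) {v : ℂ × ℂ} (hv0 : v ≠ 0) (hv : ¬ cone K v) :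
    cone K (act mI v) := by
  simp only [cone, act, mI00, mI01, mI10, mI11, zero_mul, zero_add, add_zero]
  by_cases h2 : v.2 = 0
  · have h1 : v.1 ≠ 0 := by
      intro h1; exact hv0 (Prod.ext h1 h2)
    refine ⟨mul_ne_zero Complex.I_ne_zero h1, ?_⟩
    rw [h2, mul_zero, zero_div]; exact hK.zero
  · have h3 : v.1 / v.2 ∉ K := fun h => hv ⟨h2, h⟩
    have h1 : v.1 ≠ 0 := by
      intro h1; apply h3; rw [h1, zero_div]; exact hK.zero
    refine ⟨mul_ne_zero Complex.I_ne_zero h1, ?_⟩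
    rw [mul_div_mul_left _ _ Complex.I_ne_zero, ← inv_div]
    exact hK.inv _ h3

theorem cone_ne_zero {S : Set ℂ} {v : ℂ × ℂ} (hv : cone S v) : v ≠ 0 := by
  rintro rfl; exact hv.1 rfl

theorem not_cone_of_XX {v : ℂ × ℂ} (hv : cone (XX z K) v) : ¬ cone K v := by
  rintro ⟨h1, h2⟩
  apply hv.2 0
  simpa using h2

theorem act_inD_ne_zero {n : ℤ} {g : SLC} (h : InD z n g) {v : ℂ × ℂ} (hv : cone K v) :
    act g v ≠ 0 := by
  intro h0
  have := h.act_snd hv.1
  rw [h0] at this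
  exact this rfl

theorem not_cone_K_of_inD (hK : Trap z K) (hc : IsConnected K) {n : ℤ} (hn : n ≠ 0) {g : SLC}
    (h : InD z n g) {v : ℂ × ℂ} (hv : cone K v) : ¬ cone K (act g v) := by
  rintro ⟨-, h2⟩
  obtain ⟨x, hx, -, h3⟩ := cone_K_of_inD hK h hv
  rw [h3] at h2
  apply trap_multiples hK hc n hn _ h2 _ hx
  ring

theorem good_maps (hK : Trap z K) (hc : IsConnected K) {h : SLC} (hh : Good z h) :
    ∀ v, cone (XX z K) v → cone K (act h v) := by
  induction hh with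
  | one n d hd =>
    intro v hv
    rw [act_mul]
    have h1 := cone_XX_of_inD hK hd hv
    exact cone_K_mI hK (cone_ne_zero h1) (not_cone_of_XX h1)
  | cons n d hd hn h hh ih =>
    intro v hv
    rw [act_mul, act_mul]
    exact cone_K_mI hK (act_inD_ne_zero hd (ih v hv)) (not_cone_K_of_inD hK hc hn hd (ih v hv))

theorem not_XX_of_good (hK : Trap z K) (hc : IsConnected K) {n : ℤ} {d h : SLC}
    (hd : InD z n d) (hh : Good z h) {v : ℂ × ℂ} (hv : cone (XX z K) v) :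
    ¬ cone (XX z K) (act (d * h) v) := by
  rintro ⟨-, h2⟩
  rw [act_mul] at h2
  obtain ⟨x, hx, -, h3⟩ := cone_K_of_inD hK hd (good_maps hK hc hh v hv)
  rw [h3] at h2
  apply h2 (-n)
  push_cast
  rwa [show x + (n : ℂ) * z + -(n : ℂ) * z = x by ring]

theorem not_XX_of_mem (hK : Trap z K) (hc : IsConnected K) {g : SLC} (hg : g ∈ GG z)
    (hg0 : g 1 0 ≠ 0) {v : ℂ × ℂ} (hv : cone (XX z K) v) : ¬ cone (XX z K) (act g v) := by
  rcases nf_of_mem hg with ⟨n, hn⟩ | ⟨n, d, h, hd, hh, rfl⟩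
  · exact absurd hn.1 hg0
  · exact not_XX_of_good hK hc hd hh hv

end action

theorem trap_ne_zero {z : ℂ} {K : Set ℂ} (hK : Trap z K) : z ≠ 0 := by
  rintro rfl
  exact hK.sep 0 hK.zero 0 hK.zero (sub_zero 0)

theorem locFin {z : ℂ} {K : Set ℂ} (hK : Trap z K) :
    LocallyFinite fun n : ℤ => {x : ℂ | x + n * z ∈ K} := by
  intro x
  obtain ⟨R, hR⟩ := hK.cpt.isBounded.exists_norm_le
  have hz := trap_ne_zero hK
  have hz' : 0 < ‖z‖ := norm_pos_iff.mpr hz
  refine ⟨Metric.ball x 1, Metric.ball_mem_nhds x one_pos, ?_⟩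
  apply Set.Finite.subset (Set.finite_Icc (-⌈(R + ‖x‖ + 1) / ‖z‖⌉) ⌈(R + ‖x‖ + 1) / ‖z‖⌉)
  rintro n ⟨y, hy1, hy2⟩
  have h1 := hR _ hy1
  have h2 : ‖y‖ ≤ ‖x‖ + 1 := by
    have := Metric.mem_ball.mp hy2
    rw [dist_eq_norm] at this
    have h3 := norm_sub_norm_le y x
    linarith
  have h3 : ‖(n : ℂ) * z‖ ≤ R + ‖x‖ + 1 := by
    have h4 : (n : ℂ) * z = (y + n * z) - y := by ring
    rw [h4]
    have := norm_sub_le (y + n * z) y
    linarith
  rw [norm_mul, Complex.norm_intCast] at h3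
  have h5 : |(n : ℝ)| ≤ (R + ‖x‖ + 1) / ‖z‖ := by
    rw [le_div_iff₀ hz']; exact h3
  have h6 := abs_le.mp h5
  have h7 : (R + ‖x‖ + 1) / ‖z‖ ≤ ⌈(R + ‖x‖ + 1) / ‖z‖⌉ := Int.le_ceil _
  constructor
  · have : (-⌈(R + ‖x‖ + 1) / ‖z‖⌉ : ℝ) ≤ n := by linarith [h6.1]
    exact_mod_cast this
  · have : (n : ℝ) ≤ ⌈(R + ‖x‖ + 1) / ‖z‖⌉ := by linarith [h6.2]
    exact_mod_cast this

theorem XX_isOpen {z : ℂ} {K : Set ℂ} (hK : Trap z K) : IsOpen (XX z K) := by
  have h1 : XX z K = (⋃ n : ℤ, {x : ℂ | x + n * z ∈ K})ᶜ := by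
    ext x; simp [XX]
  rw [h1, isOpen_compl_iff]
  apply (locFin hK).isClosed_iUnion
  intro n
  exact hK.cpt.isClosed.preimage (by fun_prop : Continuous fun x : ℂ => x + n * z)

theorem XX_nonempty {z : ℂ} {K : Set ℂ} (hK : Trap z K) (hc : IsConnected K) :
    (XX z K).Nonempty := by
  by_contra hne
  rw [Set.not_nonempty_iff_eq_empty] at hne
  -- then `K` is open
  have hall : ∀ x : ℂ, ∃ n : ℤ, x + n * z ∈ K := by
    intro x
    by_contra hcon
    push Not at hcon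
    have : x ∈ XX z K := hcon
    rw [hne] at this
    exact this
  have hcompl : Kᶜ = ⋃ n : {n : ℤ // n ≠ 0}, {x : ℂ | x + n.1 * z ∈ K} := by
    ext x
    simp only [Set.mem_compl_iff, Set.mem_iUnion, Set.mem_ofPred_eq]
    constructor
    · intro hx
      obtain ⟨n, hn⟩ := hall x
      refine ⟨⟨n, ?_⟩, hn⟩
      rintro rfl
      apply hx
      simpa using hn
    · rintro ⟨⟨n, hn⟩, hx⟩ hxK
      apply trap_multiples hK hc n hn _ hx _ hxK
      ring
  have hclosed : IsClosed Kᶜ := by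
    rw [hcompl]
    apply ((locFin hK).comp_injective (g := fun n : {n : ℤ // n ≠ 0} => n.1)
      Subtype.val_injective).isClosed_iUnion
    intro n
    exact hK.cpt.isClosed.preimage (by fun_prop : Continuous fun x : ℂ => x + (n.1 : ℂ) * z)
  have hclopen : IsClopen K := ⟨hK.cpt.isClosed, by rwa [← isClosed_compl_iff]⟩
  rcases isClopen_iff.mp hclopen with h | h
  · have := hK.zero; rw [h] at this; exact this
  · have := hK.cpt
    rw [h] at this
    exact noncompact_univ ℂ this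

/-! ### The iteration -/

theorem conj00 (g : SLC) (z : ℂ) : (g * mT z * g⁻¹) 0 0 = 1 - g 0 0 * (g 1 0 * z) := by
  have h := detg g
  rw [mul00, mul00, mul01, inv00, inv10]
  simp only [mT00, mT01, mT10, mT11]
  linear_combination h

theorem conj01 (g : SLC) (z : ℂ) : (g * mT z * g⁻¹) 0 1 = g 0 0 ^ 2 * z := by
  rw [mul01, mul00, mul01, inv01, inv11]
  simp only [mT00, mT01, mT10, mT11]
  ring

theorem conj10 (g : SLC) (z : ℂ) : (g * mT z * g⁻¹) 1 0 = -(g 1 0 ^ 2 * z) := by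
  rw [mul10, mul10, mul11, inv00, inv10]
  simp only [mT00, mT01, mT10, mT11]
  ring

theorem conj11 (g : SLC) (z : ℂ) : (g * mT z * g⁻¹) 1 1 = 1 + g 0 0 * (g 1 0 * z) := by
  have h := detg g
  rw [mul11, mul10, mul11, inv01, inv11]
  simp only [mT00, mT01, mT10, mT11]
  linear_combination h

/-- `g`, `g T g⁻¹`, ... -/
noncomputable def itr (z : ℂ) (g : SLC) : ℕ → SLC
  | 0 => g
  | n + 1 => itr z g n * mT z * (itr z g n)⁻¹

theorem mT_mem (z : ℂ) : mT z ∈ GG z := Subgroup.subset_closure (by simp)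
theorem mE_mem (z : ℂ) : mE ∈ GG z := Subgroup.subset_closure (by simp)
theorem mI_mem (z : ℂ) : mI ∈ GG z := Subgroup.subset_closure (by simp)

theorem itr_mem {z : ℂ} {g : SLC} (hg : g ∈ GG z) (n : ℕ) : itr z g n ∈ GG z := by
  induction n with
  | zero => exact hg
  | succ n ih =>
    exact (GG z).mul_mem ((GG z).mul_mem ih (mT_mem z)) ((GG z).inv_mem ih)

theorem itr_c_ne {z : ℂ} (hz : z ≠ 0) {g : SLC} (hg : g 1 0 ≠ 0) (n : ℕ) : itr z g n 1 0 ≠ 0 := by
  induction n with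
  | zero => exact hg
  | succ n ih =>
    simp only [itr]
    rw [conj10]
    exact neg_ne_zero.mpr (mul_ne_zero (pow_ne_zero 2 ih) hz)

theorem itr_c_le {z : ℂ} {g : SLC} {r : ℝ} (hr : ‖g 1 0 * z‖ = r) (hr1 : r < 1) (n : ℕ) :
    ‖itr z g n 1 0 * z‖ ≤ r ^ (n + 1) := by
  have hr0 : 0 ≤ r := hr ▸ norm_nonneg _
  induction n with
  | zero => simp [itr, ← hr]
  | succ n ih =>
    simp only [itr]
    rw [conj10]
    have h1 : -(itr z g n 1 0 ^ 2 * z) * z = -((itr z g n 1 0 * z) * (itr z g n 1 0 * z)) := by ring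
    rw [h1, norm_neg, norm_mul]
    have h2 : r ^ (n + 1) ≤ r := by
      rw [pow_succ]
      have : r ^ n ≤ 1 := pow_le_one₀ hr0 hr1.le
      nlinarith
    calc _ ≤ r ^ (n + 1) * r := by
          apply mul_le_mul ih (ih.trans h2) (norm_nonneg _) (by positivity)
      _ = _ := by ring

theorem itr_a_le {z : ℂ} {g : SLC} {r : ℝ} (hr : ‖g 1 0 * z‖ = r) (hr1 : r < 1) (n : ℕ) :
    ‖itr z g n 0 0‖ ≤ ‖g 0 0‖ + 1 / (1 - r) := by
  have hr0 : 0 ≤ r := hr ▸ norm_nonneg _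
  have h1r : 0 < 1 - r := by linarith
  have hq : 0 < 1 / (1 - r) := by positivity
  have hq' : 1 / (1 - r) * (1 - r) = 1 := by field_simp
  have hg0 := norm_nonneg (g 0 0)
  induction n with
  | zero => simp only [itr]; linarith
  | succ n ih =>
    simp only [itr]
    rw [conj00]
    have h2 : ‖itr z g n 1 0 * z‖ ≤ r := by
      have := itr_c_le hr hr1 n
      have h3 : r ^ (n + 1) ≤ r := by
        rw [pow_succ]
        have : r ^ n ≤ 1 := pow_le_one₀ hr0 hr1.le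
        nlinarith
      exact this.trans h3
    calc _ ≤ ‖(1 : ℂ)‖ + ‖itr z g n 0 0 * (itr z g n 1 0 * z)‖ := norm_sub_le _ _
      _ ≤ 1 + (‖g 0 0‖ + 1 / (1 - r)) * r := by
          rw [norm_one, norm_mul]
          gcongr
      _ ≤ _ := by nlinarith

theorem itr_c_tendsto {z : ℂ} {g : SLC} {r : ℝ} (hr : ‖g 1 0 * z‖ = r) (hr1 : r < 1) :
    Tendsto (fun n => itr z g n 1 0 * z) atTop (𝓝 0) := by
  have hr0 : 0 ≤ r := hr ▸ norm_nonneg _
  apply squeeze_zero_norm (a := fun n => r ^ (n + 1)) (itr_c_le hr hr1)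
  exact (tendsto_pow_atTop_nhds_zero_of_lt_one hr0 hr1).comp (tendsto_add_atTop_nat 1)

theorem itr_ac_tendsto {z : ℂ} {g : SLC} {r : ℝ} (hr : ‖g 1 0 * z‖ = r) (hr1 : r < 1) :
    Tendsto (fun n => itr z g n 0 0 * (itr z g n 1 0 * z)) atTop (𝓝 0) := by
  have hr0 : 0 ≤ r := hr ▸ norm_nonneg _
  apply squeeze_zero_norm (a := fun n => (‖g 0 0‖ + 1 / (1 - r)) * r ^ (n + 1))
  · intro n
    rw [norm_mul]
    have h1 := itr_a_le hr hr1 n
    have h2 := itr_c_le hr hr1 n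
    exact mul_le_mul h1 h2 (norm_nonneg _) ((norm_nonneg _).trans h1)
  · have := ((tendsto_pow_atTop_nhds_zero_of_lt_one hr0 hr1).comp
      (tendsto_add_atTop_nat 1)).const_mul (‖g 0 0‖ + 1 / (1 - r))
    rw [mul_zero] at this
    exact this

/-- **Shimizu - Leutbecher inequality.** -/
theorem shimizu {z : ℂ} {K : Set ℂ} (hK : Trap z K) (hc : IsConnected K) {g : SLC}
    (hg : g ∈ GG z) (hg0 : g 1 0 ≠ 0) : 1 ≤ ‖z * g 1 0‖ := by
  by_contra hlt
  push Not at hlt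
  have hz := trap_ne_zero hK
  have hr1 : ‖g 1 0 * z‖ < 1 := by rwa [mul_comm]
  obtain ⟨x0, hx0⟩ := XX_nonempty hK hc
  have t1 := itr_c_tendsto (z := z) (g := g) rfl hr1
  have t2 := itr_ac_tendsto (z := z) (g := g) rfl hr1
  -- entries of the iterates
  have c1 : Tendsto (fun n => itr z g (n + 1) 1 0) atTop (𝓝 0) := by
    have h1 : Tendsto (fun n => itr z g (n + 1) 1 0 * z * z⁻¹) atTop (𝓝 (0 * z⁻¹)) :=
      (t1.comp (tendsto_add_atTop_nat 1)).mul_const z⁻¹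
    rw [zero_mul] at h1
    refine h1.congr fun n => ?_
    field_simp
  have a1 : Tendsto (fun n => itr z g (n + 1) 0 0) atTop (𝓝 1) := by
    have h1 := t2.const_sub 1
    rw [sub_zero] at h1
    refine h1.congr fun n => ?_
    simp only [itr]
    rw [conj00]
  have d1 : Tendsto (fun n => itr z g (n + 1) 1 1) atTop (𝓝 1) := by
    have h1 := t2.const_add 1
    rw [add_zero] at h1
    refine h1.congr fun n => ?_
    simp only [itr]
    rw [conj11]
  have b1 : Tendsto (fun n => itr z g (n + 2) 0 1) atTop (𝓝 z) := by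
    have h1 := (a1.pow 2).mul_const z
    rw [one_pow, one_mul] at h1
    refine h1.congr fun n => ?_
    show _ = (itr z g (n + 1) * mT z * (itr z g (n + 1))⁻¹) 0 1
    rw [conj01]
  have s1 := tendsto_add_atTop_nat 1
  have c2 : Tendsto (fun n => itr z g (n + 2) 1 0) atTop (𝓝 0) := c1.comp s1
  have a2 : Tendsto (fun n => itr z g (n + 2) 0 0) atTop (𝓝 1) := a1.comp s1
  have d2 : Tendsto (fun n => itr z g (n + 2) 1 1) atTop (𝓝 1) := d1.comp s1
  -- the images of `x0`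
  have p1 : Tendsto (fun n => (act ((mT z)⁻¹ * itr z g (n + 2)) (x0, 1)).1) atTop (𝓝 x0) := by
    have h1 : Tendsto (fun n => (itr z g (n + 2) 0 0 - z * itr z g (n + 2) 1 0) * x0 +
        (itr z g (n + 2) 0 1 - z * itr z g (n + 2) 1 1)) atTop
        (𝓝 ((1 - z * 0) * x0 + (z - z * 1))) :=
      ((a2.sub (c2.const_mul z)).mul_const x0).add (b1.sub (d2.const_mul z))
    rw [mul_zero, sub_zero, one_mul, mul_one, sub_self, add_zero] at h1
    refine h1.congr fun n => ?_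
    simp only [act, mul00, mul01, inv00, inv01, mT01, mT11]
    ring
  have q1 : Tendsto (fun n => (act ((mT z)⁻¹ * itr z g (n + 2)) (x0, 1)).2) atTop (𝓝 1) := by
    have h1 : Tendsto (fun n => itr z g (n + 2) 1 0 * x0 + itr z g (n + 2) 1 1) atTop
        (𝓝 (0 * x0 + 1)) := (c2.mul_const x0).add d2
    rw [zero_mul, zero_add] at h1
    refine h1.congr fun n => ?_
    simp only [act, mul10, mul11, inv10, inv11, mT00, mT10]
    ring
  have r1 : Tendsto (fun n => (act ((mT z)⁻¹ * itr z g (n + 2)) (x0, 1)).1 /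
      (act ((mT z)⁻¹ * itr z g (n + 2)) (x0, 1)).2) atTop (𝓝 x0) := by
    have := p1.div q1 one_ne_zero
    rwa [div_one] at this
  have e1 := r1.eventually_mem ((XX_isOpen hK).mem_nhds hx0)
  have e2 := q1.eventually_ne (one_ne_zero (α := ℂ))
  obtain ⟨n, hn1, hn2⟩ := (e1.and e2).exists
  have hmem : (mT z)⁻¹ * itr z g (n + 2) ∈ GG z :=
    (GG z).mul_mem ((GG z).inv_mem (mT_mem z)) (itr_mem hg _)
  refine not_XX_of_mem hK hc hmem ?_ (v := (x0, 1)) ⟨one_ne_zero, by simpa using hx0⟩ ⟨hn2, hn1⟩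
  rw [mul10, inv10, inv11, mT10, mT00, neg_zero, zero_mul, zero_add, one_mul]
  exact itr_c_ne hz hg0 _

/-! ### Continuants -/

theorem continuant_entry {z : ℂ} {d : ℕ → ℤ} {b : ℕ → ℂ} (hb : ∀ n, b n = 1 ∨ b n = -1)
    {ψ : ℕ → ℂ} (h0 : ψ 0 = 1) (h1 : ψ 1 = (d 0 : ℂ) * z)
    (hrec : ∀ n, ψ (n + 2) = (d (n + 1) : ℂ) * z * ψ (n + 1) - b n * ψ n) (n : ℕ) :
    ∃ g ∈ GG z, ∃ u : ℂ, ‖u‖ = 1 ∧ g 0 1 = u * ψ n ∧ g 1 1 = u * ψ (n + 1) := by
  have hTz : ∀ k : ℤ, mT (k * z) ∈ GG z := by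
    intro k
    have h2 : mT (k * z) = mT z ^ k := by
      have hadd : ∀ x y : ℂ, mT (x + y) = mT x * mT y := by
        intro x y
        apply ext4 <;> simp [mul00, mul01, mul10, mul11, add_comm]
      have hinv : ∀ x : ℂ, mT (-x) = (mT x)⁻¹ := by
        intro x
        apply ext4 <;> simp [inv00, inv01, inv10, inv11]
      have hnat : ∀ m : ℕ, mT (m * z) = mT z ^ m := by
        intro m
        induction m with
        | zero =>
          apply ext4 <;> simp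
        | succ m ih =>
          rw [pow_succ, ← ih, ← hadd]
          congr 1
          push_cast; ring
      cases k with
      | ofNat m => simpa using hnat m
      | negSucc m =>
        rw [zpow_negSucc, ← hnat, ← hinv]
        congr 1
        push_cast; ring
    rw [h2]
    exact (GG z).zpow_mem (mT_mem z) k
  induction n with
  | zero =>
    refine ⟨mI * mE * mT (((-d 0 : ℤ) : ℂ) * z), (GG z).mul_mem ((GG z).mul_mem (mI_mem z)
      (mE_mem z)) (hTz _), 1, norm_one, ?_, ?_⟩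
    · rw [mul01, mul00, mul01, h0]
      simp
    · rw [mul11, mul10, mul11, h1]
      simp
  | succ n ih =>
    obtain ⟨g, hg, u, hu, e1, e2⟩ := ih
    rcases hb n with hbn | hbn
    · refine ⟨mI * mE * mT (((-d (n + 1) : ℤ) : ℂ) * z) * g, (GG z).mul_mem ((GG z).mul_mem
        ((GG z).mul_mem (mI_mem z) (mE_mem z)) (hTz _)) hg, u, hu, ?_, ?_⟩
      · simp [mul00, mul01, mul10, mul11, e1, e2]
      · simp only [mul00, mul01, mul10, mul11, e1, e2, hrec, hbn, mI00, mI01, mI10, mI11, mE00,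
          mE01, mE10, mE11, mT00, mT01, mT10, mT11]
        push_cast
        linear_combination (u * ψ n - (d (n + 1) : ℂ) * z * (u * ψ (n + 1))) * Complex.I_mul_I
    · refine ⟨mI * mT ((d (n + 1) : ℂ) * z) * g, (GG z).mul_mem ((GG z).mul_mem
        (mI_mem z) (hTz _)) hg, Complex.I * u, by simp [hu], ?_, ?_⟩
      · rw [mul01, mul00, mul01, e1, e2]
        simp
        ring
      · rw [mul11, mul10, mul11, e1, e2, hrec, hbn]
        simp
        ring

/-- All continuants with nonzero integer digits have modulus at least `1 / ‖z‖`. -/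
theorem continuant_ge {z : ℂ} {K : Set ℂ} (hK : Trap z K) (hc : IsConnected K) {d : ℕ → ℤ}
    (hd : ∀ n, d n ≠ 0) {b : ℕ → ℂ} (hb : ∀ n, b n = 1 ∨ b n = -1) {ψ : ℕ → ℂ} (h0 : ψ 0 = 1)
    (h1 : ψ 1 = (d 0 : ℂ) * z)
    (hrec : ∀ n, ψ (n + 2) = (d (n + 1) : ℂ) * z * ψ (n + 1) - b n * ψ n) (n : ℕ) :
    1 ≤ ‖z * ψ n‖ := by
  obtain ⟨g, hg, u, hu, e1, -⟩ := continuant_entry hb h0 h1 hrec n
  have hne := (continuant_mem hK hc hd hb h0 h1 hrec n).1
  have hu0 : u ≠ 0 := by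
    rintro rfl
    rw [norm_zero] at hu
    exact zero_ne_one hu
  have hm : mI * g * mI⁻¹ ∈ GG z :=
    (GG z).mul_mem ((GG z).mul_mem (mI_mem z) hg) ((GG z).inv_mem (mI_mem z))
  have hent : (mI * g * mI⁻¹) 1 0 = u * ψ n := by
    rw [mul10, mul10, mul11, inv00, inv10, ← e1]
    simp only [mI10, mI11]
    linear_combination (-g 0 1) * Complex.I_mul_I
  have := shimizu hK hc hm (by rw [hent]; exact mul_ne_zero hu0 hne)
  rw [hent, norm_mul, norm_mul, hu, one_mul] at this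
  rwa [norm_mul]

end Pool.Agent.FZE
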