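import Pool.Agent.FZE.Trp
import Pool.Agent.FZE.Fun
import Pool.Agent.FZE.AntiX
import Pool.Agent.FZE.Shim
import Pool.Agent.FZE.Grp
import Pool.Agent.FZC.Fav

set_option autoImplicit false

open Pool.Agent.FZC

/-!
# The complement of the Feinberg-Zee spectrum
-/

namespace Pool.Agent.FZE

theorem exists_continuum {z : ℂ} (h : z ∉ Sig) :
    ∃ K : Set ℂ, Trap z K ∧ IsConnected K ∧ IsConnected Kᶜ := by
  have h1 : ¬ BddSol z := fun hb => h (by rw [Sig_eq]; exact hb)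
  obtain ⟨m, hm, hU⟩ := exists_unif {z} isCompact_singleton (by
    intro w hw
    rw [Set.mem_singleton_iff.mp hw]
    exact h1)
  obtain ⟨F, hF⟩ := exists_anti hm (hU z rfl)
  exact continuum_of_anti hF

theorem exists_cont {z : ℂ} (h : z ∉ Sig) : ∃ K : Set ℂ, IsCompact K ∧ IsConnected K ∧
    IsConnected Kᶜ ∧ (∀ x ∈ K, -x ∈ K) ∧ (∀ x : ℂ, x ≠ 0 → x ∈ K ∨ x⁻¹ ∈ K) ∧
    ∀ n : ℤ, n ≠ 0 → ∀ x ∈ K, x + n * z ∉ K := by
  obtain ⟨K, hK, hc, hcc⟩ := exists_continuum h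
  refine ⟨K, hK.cpt, hc, hcc, hK.neg, fun x _ => or_iff_not_imp_left.2 fun hx => hK.inv x hx,
    fun n hn x hx hx' => trap_multiples hK hc n hn _ hx' _ hx (by ring)⟩

/-- Only compactness, the two symmetries and one translate are needed. -/
theorem not_mem_of_weak {z : ℂ} {K : Set ℂ} (h1 : IsCompact K) (h4 : ∀ x ∈ K, -x ∈ K)
    (h5 : ∀ x : ℂ, x ≠ 0 → x ∈ K ∨ x⁻¹ ∈ K) (h6 : ∀ x ∈ K, x + z ∉ K) : z ∉ Sig := by
  have h3 : (0 : ℂ) ∈ K := by
    obtain ⟨R, hR⟩ := h1.isBounded.subset_closedBall (0 : ℂ)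
    rw [← h1.isClosed.closure_eq, Metric.mem_closure_iff]
    intro ε hε
    set t : ℝ := |R| + 1 + 1 / ε with ht
    have htp : 0 < t := by positivity
    have h1' : ((t : ℝ) : ℂ) ≠ 0 := by exact_mod_cast htp.ne'
    have h2 : ((t : ℝ) : ℂ) ∉ K := by
      intro h
      have := hR h
      rw [mem_closedBall_zero_iff, Complex.norm_real, Real.norm_of_nonneg htp.le] at this
      have h3 : R ≤ |R| := le_abs_self R
      have h4 : 0 < 1 / ε := by positivity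
      linarith
    refine ⟨((t : ℝ) : ℂ)⁻¹, (h5 _ h1').resolve_left h2, ?_⟩
    rw [dist_eq_norm, zero_sub, norm_neg, norm_inv, Complex.norm_real, Real.norm_of_nonneg htp.le]
    have h3 : 1 / ε < t := by
      have : 0 ≤ |R| := abs_nonneg R
      linarith
    rw [inv_lt_comm₀ htp hε]
    simpa using h3
  refine not_mem_of_trap (K := K) ⟨h1, h3, h4, fun x hx => ?_, ?_⟩
  · exact (h5 x fun h => hx (h ▸ h3)).resolve_left hx
  · intro x hx y hy he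
    apply h6 y hy
    rw [← he]
    simpa using hx

theorem freeDisc {z : ℂ} (h : z ∉ Sig) : FreeDisc (z ^ 2) := by
  obtain ⟨K, hK, hc, -⟩ := exists_continuum h
  exact freeDisc_of hK hc

theorem digits {z : ℂ} (h : z ∉ Sig) {d : ℕ → ℤ}
    (hd : ∀ n, d n ≠ 0) {b : ℕ → ℂ} (hb : ∀ n, b n = 1 ∨ b n = -1) {ψ : ℕ → ℂ} (h0 : ψ 0 = 1)
    (h1 : ψ 1 = (d 0 : ℂ) * z)
    (hrec : ∀ n, ψ (n + 2) = (d (n + 1) : ℂ) * z * ψ (n + 1) - b n * ψ n) (n : ℕ) :
    1 ≤ ‖z * ψ n‖ := by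
  obtain ⟨K, hK, hc, -⟩ := exists_continuum h
  exact continuant_ge hK hc hd hb h0 h1 hrec n

end Pool.Agent.FZE
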