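import Pool.Agent.FZE.Defs
import Pool.Agent.FZR.Har

set_option autoImplicit false

open Pool.Agent.FZC Polynomial

/-!
# A trap excludes the spectrum
-/

namespace Pool.Agent.FZE

/- MODULE ta
The trap survives small changes of `z`: `K + K` is compact (`K = -K`) and does not contain `z`
(`sep`), so its distance from `z` is positive; for `x` in `K` and `z'` near `z` the point
`z' - b x` is not in `K` (otherwise `z' = (z' - b x) - (-(b x))`, a difference of points of `K`,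
lies in the closed set `K - K` which misses a ball around `z`); in particular it is not `0`, and its
inverse is in `K` by `inv`. -/
theorem trap_open {z : ℂ} {K : Set ℂ} (h : Trap z K) : ∃ ρ : ℝ, 0 < ρ ∧ ∀ z' : ℂ, ‖z' - z‖ < ρ →
    ∀ x ∈ K, ∀ b : ℂ, (b = 1 ∨ b = -1) → z' - b * x ≠ 0 ∧ (z' - b * x)⁻¹ ∈ K := by
  have hc : IsCompact ((fun q : ℂ × ℂ => q.1 - q.2) '' (K ×ˢ K)) :=
    (h.cpt.prod h.cpt).image (continuous_fst.sub continuous_snd)
  have hz : z ∈ ((fun q : ℂ × ℂ => q.1 - q.2) '' (K ×ˢ K))ᶜ := by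
    rintro ⟨⟨x, y⟩, ⟨hx, hy⟩, e⟩
    exact h.sep x hx y hy e
  obtain ⟨ρ, hρ, hb⟩ := Metric.isOpen_iff.1 hc.isClosed.isOpen_compl z hz
  refine ⟨ρ, hρ, fun z' hz' x hx b hbb => ?_⟩
  have hw : z' - b * x ∉ K := by
    intro hw
    have h1 : z' ∈ Metric.ball z ρ := by rwa [Metric.mem_ball, dist_eq_norm]
    refine hb h1 ⟨(z' - b * x, -(b * x)), ⟨hw, ?_⟩, ?_⟩
    · rcases hbb with rfl | rfl
      · simpa using h.neg x hx
      · simpa using hx
    · change z' - b * x - -(b * x) = z'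
      ring
  exact ⟨fun h0 => hw (h0 ▸ h.zero), h.inv _ hw⟩
/- END ta -/

/- MODULE tb
Cauchy estimate.  `ψ 0 = 1`, `ψ 1 = z`, `ψ (n+2) = z ψ (n+1) - b n ψ n`.  For signs `b` all `ψ n ≠ 0`
(the quotients `x_n = ψ n / ψ (n+1)` are `x_0 = 1/z`, `x_(n+1) = 1/(z - b n x_n)`, in `K`).
Choose `ε_k = (b_0 .. b_(k-1)) |ψ k|^2 / (ψ k)^2` (modulus one) and define, for `|ζ| < ρ`,
`X_0 ζ = 1/(z + ε_0 ζ)`, `X_(n+1) ζ = 1/(z + ε_(n+1) ζ - b_n X_n ζ)`: holomorphic on the ball with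
values in `K` (module ta), so `|X_n' 0| <= 2 R / ρ` if `K` is in the ball of radius `R`
(`Complex.norm_deriv_le_of_forall_mem_sphere_norm_le` or similar).  Induction on `n`:
`ψ_(n+1)^2 * X_n' 0 = - (b_0 .. b_(n-1)) * sum_(k <= n) |ψ k|^2`. -/
private theorem tb_x {z : ℂ} {K : Set ℂ} (h : Trap z K) (b : ℕ → ℂ)
    (hb : ∀ n, b n = 1 ∨ b n = -1) (ψ : ℕ → ℂ) (h0 : ψ 0 = 1) (h1 : ψ 1 = z)
    (hr : ∀ n, ψ (n + 2) = z * ψ (n + 1) - b n * ψ n) (n : ℕ) :
    ψ (n + 1) ≠ 0 ∧ ψ n / ψ (n + 1) ∈ K := by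
  obtain ⟨ρ, hρ, ho⟩ := trap_open h
  have hz : ‖z - z‖ < ρ := by rwa [sub_self, norm_zero]
  induction n with
  | zero =>
    have h2 := ho z hz 0 h.zero 1 (Or.inl rfl)
    rw [mul_zero, sub_zero] at h2
    rw [zero_add, h0, h1, one_div]
    exact h2
  | succ n ih =>
    obtain ⟨i1, i2⟩ := ih
    have h2 := ho z hz _ i2 (b n) (hb n)
    have e : ψ (n + 2) = ψ (n + 1) * (z - b n * (ψ n / ψ (n + 1))) := by
      rw [hr n]
      field_simp
    refine ⟨by rw [e]; exact mul_ne_zero i1 h2.1, ?_⟩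
    have e2 : ψ (n + 1) / ψ (n + 1 + 1) = (z - b n * (ψ n / ψ (n + 1)))⁻¹ := by
      rw [e]
      have := h2.1
      field_simp
    rw [e2]
    exact h2.2

private theorem tb_psi {z : ℂ} {K : Set ℂ} (h : Trap z K) (b : ℕ → ℂ)
    (hb : ∀ n, b n = 1 ∨ b n = -1) (ψ : ℕ → ℂ) (h0 : ψ 0 = 1) (h1 : ψ 1 = z)
    (hr : ∀ n, ψ (n + 2) = z * ψ (n + 1) - b n * ψ n) (n : ℕ) : ψ n ≠ 0 := by
  cases n with
  | zero => rw [h0]; exact one_ne_zero
  | succ n => exact (tb_x h b hb ψ h0 h1 hr n).1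

private theorem tb_prod (b : ℕ → ℂ) (hb : ∀ n, b n = 1 ∨ b n = -1) (n : ℕ) :
    ‖∏ i ∈ Finset.range n, b i‖ = 1 := by
  rw [norm_prod]
  refine Finset.prod_eq_one fun i _ => ?_
  rcases hb i with h | h <;> simp [h]

theorem sum_le {z : ℂ} {K : Set ℂ} (h : Trap z K) : ∃ C : ℝ, 0 < C ∧ ∀ b : ℕ → ℂ,
    (∀ n, b n = 1 ∨ b n = -1) → ∀ ψ : ℕ → ℂ, ψ 0 = 1 → ψ 1 = z →
    (∀ n, ψ (n + 2) = z * ψ (n + 1) - b n * ψ n) →
    ∀ n, ∑ k ∈ Finset.range (n + 1), ‖ψ k‖ ^ 2 ≤ C * ‖ψ (n + 1)‖ ^ 2 := by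
  obtain ⟨ρ, hρ, ho⟩ := trap_open h
  obtain ⟨R, hR⟩ := h.cpt.isBounded.exists_norm_le
  have hR0 : 0 ≤ R := (norm_nonneg _).trans (hR 0 h.zero)
  refine ⟨R / (ρ / 2) + 1, by positivity, fun b hb ψ h0 h1 hr n => ?_⟩
  have hne := tb_psi h b hb ψ h0 h1 hr
  let π : ℕ → ℂ := fun k => ∏ i ∈ Finset.range k, b i
  have hπ : ∀ k, ‖π k‖ = 1 := tb_prod b hb
  have hπs : ∀ k, π (k + 1) = π k * b k := fun k => Finset.prod_range_succ _ _
  let ε : ℕ → ℂ := fun k => π k * (‖ψ k‖ ^ 2 : ℝ) / ψ k ^ 2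
  have hε : ∀ k, ‖ε k‖ = 1 := by
    intro k
    have h2 : ‖ψ k‖ ≠ 0 := norm_ne_zero_iff.2 (hne k)
    simp only [ε]
    rw [norm_div, norm_mul, hπ, one_mul, norm_pow, Complex.norm_real, Real.norm_eq_abs,
      abs_of_nonneg (by positivity)]
    field_simp
  let F : ℕ → ℂ → ℂ := fun k => Nat.rec (fun ζ => (z + ε 0 * ζ)⁻¹)
    (fun m f ζ => (z + ε (m + 1) * ζ - b m * f ζ)⁻¹) k
  have F0 : ∀ ζ, F 0 ζ = (z + ε 0 * ζ - 1 * 0)⁻¹ := fun ζ => by
    change (z + ε 0 * ζ)⁻¹ = _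
    rw [mul_zero, sub_zero]
  have Fs : ∀ m ζ, F (m + 1) ζ = (z + ε (m + 1) * ζ - b m * F m ζ)⁻¹ := fun m ζ => rfl
  let S : ℕ → ℝ := fun m => ∑ k ∈ Finset.range (m + 1), ‖ψ k‖ ^ 2
  have key : ∀ m, (∀ ζ : ℂ, ‖ζ‖ < ρ → F m ζ ∈ K) ∧
      DifferentiableOn ℂ (F m) (Metric.ball 0 ρ) ∧ F m 0 = ψ m / ψ (m + 1) ∧
      HasDerivAt (F m) (-(π m * (S m : ℝ)) / ψ (m + 1) ^ 2) 0 := by
    intro m
    have hζ : ∀ k : ℕ, ∀ ζ : ℂ, ‖ζ‖ < ρ → ‖z + ε k * ζ - z‖ < ρ := by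
      intro k ζ h2
      rw [add_sub_cancel_left, norm_mul, hε, one_mul]
      exact h2
    induction m with
    | zero =>
      have a1 : ∀ ζ : ℂ, ‖ζ‖ < ρ → z + ε 0 * ζ ≠ 0 ∧ (z + ε 0 * ζ)⁻¹ ∈ K := by
        intro ζ h2
        have h3 := ho (z + ε 0 * ζ) (hζ 0 ζ h2) 0 h.zero 1 (Or.inl rfl)
        rwa [mul_zero, sub_zero] at h3
      have hz : z ≠ 0 := by rw [← h1]; exact hne 1
      have d0 : ∀ ζ : ℂ, HasDerivAt (fun ζ => z + ε 0 * ζ) (ε 0) ζ := by
        intro ζ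
        have := ((hasDerivAt_id ζ).const_mul (ε 0)).const_add z
        rwa [mul_one] at this
      refine ⟨fun ζ h2 => (a1 ζ h2).2, fun ζ h2 => ?_, ?_, ?_⟩
      · have h3 : ‖ζ‖ < ρ := by rwa [Metric.mem_ball, dist_zero_right] at h2
        exact ((d0 ζ).inv (a1 ζ h3).1).differentiableAt.differentiableWithinAt
      · change (z + ε 0 * 0)⁻¹ = _
        rw [mul_zero, add_zero, zero_add, h0, h1, one_div]
      · have h3 := (d0 0).inv (by rw [mul_zero, add_zero]; exact hz)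
        have e1 : ε 0 = 1 := by simp [ε, π, h0]
        have e2 : -(π 0 * (S 0 : ℝ)) / ψ (0 + 1) ^ 2 = -ε 0 / (z + ε 0 * 0) ^ 2 := by
          rw [e1]
          simp [π, S, h0, h1]
        rw [e2]
        exact h3
    | succ m ih =>
      obtain ⟨i1, i2, i3, i4⟩ := ih
      have a1 : ∀ ζ : ℂ, ‖ζ‖ < ρ → z + ε (m + 1) * ζ - b m * F m ζ ≠ 0 ∧
          (z + ε (m + 1) * ζ - b m * F m ζ)⁻¹ ∈ K :=
        fun ζ h2 => ho _ (hζ (m + 1) ζ h2) _ (i1 ζ h2) _ (hb m)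
      have d0 : ∀ ζ : ℂ, HasDerivAt (fun ζ => z + ε (m + 1) * ζ) (ε (m + 1)) ζ := by
        intro ζ
        have := ((hasDerivAt_id ζ).const_mul (ε (m + 1))).const_add z
        rwa [mul_one] at this
      have e0 : z + ε (m + 1) * 0 - b m * F m 0 = ψ (m + 2) / ψ (m + 1) := by
        rw [i3, hr m]
        have := hne (m + 1)
        field_simp
        ring
      refine ⟨fun ζ h2 => (a1 ζ h2).2, fun ζ h2 => ?_, ?_, ?_⟩
      · have h3 : ‖ζ‖ < ρ := by rwa [Metric.mem_ball, dist_zero_right] at h2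
        have h4 : DifferentiableAt ℂ (F m) ζ := i2.differentiableAt (Metric.isOpen_ball.mem_nhds h2)
        exact (((d0 ζ).differentiableAt.sub (h4.const_mul _)).inv
          (a1 ζ h3).1).differentiableWithinAt
      · rw [Fs, e0, inv_div]
      · have hne0 : z + ε (m + 1) * 0 - b m * F m 0 ≠ 0 := by
          rw [e0]
          exact div_ne_zero (hne _) (hne _)
        have h3 := ((d0 0).sub (i4.const_mul (b m))).inv hne0
        have e2 : -(π (m + 1) * (S (m + 1) : ℝ)) / ψ (m + 1 + 1) ^ 2 =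
            -(ε (m + 1) - b m * (-(π m * (S m : ℝ)) / ψ (m + 1) ^ 2)) /
              (z + ε (m + 1) * 0 - b m * F m 0) ^ 2 := by
          rw [e0]
          have e3 : S (m + 1) = S m + ‖ψ (m + 1)‖ ^ 2 := Finset.sum_range_succ _ _
          have e4 : b m * b m = 1 := by rcases hb m with h5 | h5 <;> rw [h5] <;> norm_num
          have n1 := hne (m + 1)
          have n2 := hne (m + 2)
          simp only [ε]
          rw [e3, hπs m]
          push_cast
          field_simp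
          ring
        rw [e2]
        exact h3
  obtain ⟨k1, k2, -, k4⟩ := key n
  have hd : ‖deriv (F n) 0‖ ≤ R / (ρ / 2) := by
    refine Complex.norm_deriv_le_of_forall_mem_sphere_norm_le (half_pos hρ) ?_ fun ζ h2 => ?_
    · refine DifferentiableOn.diffContOnCl (k2.mono ?_)
      intro ζ h2
      have h3 : ζ ∈ Metric.closedBall (0 : ℂ) (ρ / 2) := Metric.closure_ball_subset_closedBall h2
      rw [Metric.mem_closedBall] at h3
      rw [Metric.mem_ball]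
      linarith
    · refine hR _ (k1 ζ ?_)
      rw [mem_sphere_iff_norm, sub_zero] at h2
      linarith
  rw [k4.deriv, norm_div, norm_neg, norm_mul, hπ, one_mul, Complex.norm_real, norm_pow,
    Real.norm_eq_abs, abs_of_nonneg (Finset.sum_nonneg fun _ _ => by positivity)] at hd
  have hp : 0 < ‖ψ (n + 1)‖ ^ 2 := by
    have := norm_pos_iff.2 (hne (n + 1))
    positivity
  rw [div_le_iff₀ hp] at hd
  calc S n ≤ R / (ρ / 2) * ‖ψ (n + 1)‖ ^ 2 := hd
    _ ≤ (R / (ρ / 2) + 1) * ‖ψ (n + 1)‖ ^ 2 := by nlinarith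
/- END tb -/

/- MODULE tc
`S_n = sum_(k <= n) |ψ k|^2` satisfies `S_n <= C (S_(n+1) - S_n)`, so `S_n` and then `|ψ n|^2`
grows exponentially, uniformly in the signs.  For a word `v` of length `n` the sequence `ψ` with the
reversed letters gives `ψ (n+1) = (D v).eval z` (`KK (a :: w) = (X * (KK w).1 - C (sg a) (KK w).2,
(KK w).1)`, `KK [] = (X, 1)`), `ψ n = ((KK v).2).eval z`.  `z ≠ 0` by `sep` (`0 - 0 ≠ z`), and
`(P v).eval z = z * (D v).eval z`. -/
private def tc_seq (z : ℂ) (b : ℕ → ℂ) : ℕ → ℂ × ℂ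
  | 0 => (1, z)
  | n + 1 => ((tc_seq z b n).2, z * (tc_seq z b n).2 - b n * (tc_seq z b n).1)

private theorem tc_congr (z : ℂ) (b b' : ℕ → ℂ) (n : ℕ) (h : ∀ i < n, b i = b' i) :
    tc_seq z b n = tc_seq z b' n := by
  induction n with
  | zero => rfl
  | succ n ih =>
    rw [tc_seq, tc_seq, ih fun i hi => h i (Nat.lt_succ_of_lt hi), h n (Nat.lt_succ_self n)]

private theorem tc_word (z : ℂ) (v : List Bool) : ∃ b : ℕ → ℂ, (∀ n, b n = 1 ∨ b n = -1) ∧
    tc_seq z b v.length = ((KK v).2.eval z, (KK v).1.eval z) := by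
  induction v with
  | nil =>
    refine ⟨fun _ => 1, fun _ => Or.inl rfl, ?_⟩
    simp [tc_seq, KK]
  | cons a w ih =>
    obtain ⟨b, hb, hw⟩ := ih
    refine ⟨Function.update b w.length (sg a), fun n => ?_, ?_⟩
    · by_cases h : n = w.length
      · rw [h, Function.update_self]
        cases a <;> simp [sg]
      · rw [Function.update_of_ne h]
        exact hb n
    · rw [List.length_cons, tc_seq, tc_congr z (Function.update b w.length (sg a)) b w.length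
        (fun i hi => Function.update_of_ne hi.ne _ _), hw, Function.update_self]
      simp [KK]

theorem Gr_of_trap {z : ℂ} {K : Set ℂ} (h : Trap z K) : Pool.Agent.FZR.Gr z := by
  obtain ⟨C, hC, hs⟩ := sum_le h
  have hz : z ≠ 0 := fun h0 => h.sep 0 h.zero 0 h.zero (by rw [sub_zero, h0])
  have hq : 1 < 1 + 1 / C := by
    have : 0 < 1 / C := by positivity
    linarith
  refine ⟨√(1 + 1 / C), ‖z‖ / √C, ?_, by have := norm_pos_iff.2 hz; positivity, fun v => ?_⟩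
  · rw [Real.lt_sqrt (by norm_num), one_pow]
    exact hq
  obtain ⟨b, hb, hw⟩ := tc_word z v
  have hψ : ∀ n, (tc_seq z b (n + 1)).1 = (tc_seq z b n).2 := fun n => rfl
  have key := hs b hb (fun n => (tc_seq z b n).1) rfl rfl fun n => rfl
  have grow : ∀ n, (1 + 1 / C) ^ n ≤ ∑ k ∈ Finset.range (n + 1), ‖(tc_seq z b k).1‖ ^ 2 := by
    intro n
    induction n with
    | zero => simp [tc_seq]
    | succ n ih =>
      rw [Finset.sum_range_succ, pow_succ]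
      have h1 := key n
      set S := ∑ k ∈ Finset.range (n + 1), ‖(tc_seq z b k).1‖ ^ 2
      have h2 : S / C ≤ ‖(tc_seq z b (n + 1)).1‖ ^ 2 := by
        rw [div_le_iff₀ hC]
        linarith
      have h3 : (1 + 1 / C) ^ n * (1 + 1 / C) ≤ S * (1 + 1 / C) :=
        mul_le_mul_of_nonneg_right ih (by positivity)
      have h4 : S * (1 + 1 / C) = S + S / C := by ring
      linarith
  have h1 := (grow v.length).trans (key v.length)
  have h2 : (tc_seq z b (v.length + 1)).1 = (D v).eval z := by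
    rw [hψ, hw]
    rfl
  have h1' : (1 + 1 / C) ^ v.length ≤ C * ‖(D v).eval z‖ ^ 2 := by
    have h1' := h1
    change _ ≤ C * ‖(tc_seq z b (v.length + 1)).1‖ ^ 2 at h1'
    rwa [h2] at h1'
  have h3 : √(1 + 1 / C) ^ v.length ≤ √C * ‖(D v).eval z‖ := by
    refine (sq_le_sq₀ (by positivity) (by positivity)).1 ?_
    rw [mul_pow, Real.sq_sqrt hC.le, ← pow_mul, mul_comm v.length 2, pow_mul,
      Real.sq_sqrt (by positivity)]
    exact h1'
  have hsC : 0 < √C := Real.sqrt_pos.2 hC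
  rw [P, Polynomial.eval_mul, Polynomial.eval_X, norm_mul, div_mul_eq_mul_div, div_le_iff₀ hsC]
  calc ‖z‖ * √(1 + 1 / C) ^ v.length ≤ ‖z‖ * (√C * ‖(D v).eval z‖) :=
        mul_le_mul_of_nonneg_left h3 (norm_nonneg _)
    _ = ‖z‖ * ‖(D v).eval z‖ * √C := by ring
/- END tc -/

theorem not_mem_of_trap {z : ℂ} {K : Set ℂ} (h : Trap z K) : z ∉ Sig :=
  Pool.Agent.FZR.not_mem_of_Gr (Gr_of_trap h)

end Pool.Agent.FZE
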